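import Pool.Agent.H95.GY.Targets

/-!
# Module LFT: equivariant lifting of all one-parameter groups
-/

set_option autoImplicit false

open Filter Topology Set

universe u

namespace Pool.Agent.H95.GY

/-- good subgroups below `N` -/
structure Idx {G : Type u} [Group G] [TopologicalSpace G] (N : Subgroup G) where
  sub : Subgroup G
  good : Good sub
  le : sub ≤ N

instance {G : Type u} [Group G] [TopologicalSpace G] (N : Subgroup G) : Preorder (Idx N) where
  le i j := j.sub ≤ i.sub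
  le_refl i := le_refl i.sub
  le_trans i j k hij hjk := le_trans (α := Subgroup G) hjk hij

instance {G : Type u} [Group G] [TopologicalSpace G] (N : Subgroup G) (i : Idx N) :
    i.sub.Normal := i.good.normal

section

variable {G : Type u} [Group G] [TopologicalSpace G] {N : Subgroup G}

/-- the projections -/
def qmap (i j : Idx N) (h : i ≤ j) : G ⧸ j.sub →* G ⧸ i.sub :=
  QuotientGroup.map j.sub i.sub (MonoidHom.id G) h

theorem qmap_mk (i j : Idx N) (h : i ≤ j) (x : G) :
    qmap i j h (QuotientGroup.mk x) = QuotientGroup.mk x := rfl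

theorem qmap_cont (i j : Idx N) (h : i ≤ j) : Continuous (qmap i j h) := by
  refine (QuotientGroup.isQuotientMap_mk j.sub).continuous_iff.2 ?_
  exact QuotientGroup.continuous_mk

theorem qmap_surj (i j : Idx N) (h : i ≤ j) : Function.Surjective (qmap i j h) := by
  intro y
  obtain ⟨x, rfl⟩ := QuotientGroup.mk_surjective y
  exact ⟨QuotientGroup.mk x, rfl⟩

theorem qmap_open [IsTopologicalGroup G] (i j : Idx N) (h : i ≤ j) : IsOpenMap (qmap i j h) := by
  intro O hO
  have : qmap i j h '' O =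
      (QuotientGroup.mk : G → G ⧸ i.sub) '' ((QuotientGroup.mk : G → G ⧸ j.sub) ⁻¹' O) := by
    ext y
    constructor
    · rintro ⟨z, hz, rfl⟩
      obtain ⟨x, rfl⟩ := QuotientGroup.mk_surjective z
      exact ⟨x, hz, rfl⟩
    · rintro ⟨x, hx, rfl⟩
      exact ⟨QuotientGroup.mk x, hx, rfl⟩
  rw [this]
  exact QuotientGroup.isOpenMap_coe _ (hO.preimage QuotientGroup.continuous_mk)

end

theorem pf_LFT (hLIE : T_LIE.{u}) (hQNS : T_QNS.{u}) (hFUN : T_FUN.{u}) (hAD : T_AD.{u})
    (hAVG : T_AVG.{u}) (hAFF : T_AFF.{u}) (hGLU : T_GLU.{u}) (hCTS : T_CTS.{u, 0}) :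
    T_LFT.{u} := by
  classical
  intro G _ _ _ _ _ hG K hK N _ hN
  have : CompactSpace K := isCompact_iff_compactSpace.1 hK
  have hT2 : ∀ i : Idx N, T2Space (G ⧸ i.sub) := fun i =>
    (hQNS G i.sub i.good.compact i.good.trap).1
  have hchart : ∀ i : Idx N, ∃ (n : ℕ) (e : (Fin n → ℝ) → ℝ → G ⧸ i.sub),
      Chart (G ⧸ i.sub) n e := by
    intro i
    obtain ⟨h1, h2, h3⟩ := hQNS G i.sub i.good.compact i.good.trap
    exact hLIE (G ⧸ i.sub) h3
  choose n e he using hchart
  let c : ∀ i : Idx N, K →* G ⧸ i.sub := fun i => (QuotientGroup.mk' i.sub).comp K.subtype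
  have hc : ∀ i, Continuous (c i) := fun i =>
    QuotientGroup.continuous_mk.comp continuous_subtype_val
  choose ρ hρ1 hρ2 hρ3 hρ4 using fun i =>
    hAD (G ⧸ i.sub) (n i) (e i) (he i) K (c i) (hc i)
  choose p hp1 hp2 using fun (i j : Idx N) (h : i ≤ j) =>
    hFUN (G ⧸ j.sub) (G ⧸ i.sub) (n j) (n i) (e j) (e i) (qmap i j h) (he j) (he i)
      (qmap_cont i j h)
  have hps : ∀ i j h, Function.Surjective (p i j h) := fun i j h =>
    hp2 i j h (qmap_surj i j h) (qmap_open i j h)
  have hinj : ∀ (i : Idx N) (v w : Fin (n i) → ℝ), (∀ t, e i v t = e i w t) → v = w :=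
    fun i v w h => (he i).inj (funext h)
  have hpp : ∀ (i j k : Idx N) (hij : i ≤ j) (hjk : j ≤ k) (v : Fin (n k) → ℝ),
      p i j hij (p j k hjk v) = p i k (hij.trans hjk) v := by
    intro i j k hij hjk v
    refine hinj i _ _ fun t => ?_
    rw [hp1, hp1, hp1]
    obtain ⟨x, hx⟩ := QuotientGroup.mk_surjective (e k v t)
    rw [← hx]
    rfl
  have hpid : ∀ (i : Idx N) (h : i ≤ i) (v : Fin (n i) → ℝ), p i i h v = v := by
    intro i h v
    refine hinj i _ _ fun t => ?_
    rw [hp1]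
    obtain ⟨x, hx⟩ := QuotientGroup.mk_surjective (e i v t)
    rw [← hx]
    rfl
  have hqc : ∀ (i j : Idx N) (h : i ≤ j) (k : K), qmap i j h (c j k) = c i k := fun _ _ _ _ => rfl
  have hpρ : ∀ (i j : Idx N) (h : i ≤ j) (k : K) (v : Fin (n j) → ℝ),
      p i j h (ρ j k v) = ρ i k (p i j h v) := by
    intro i j h k v
    refine hinj i _ _ fun t => ?_
    rw [hp1, hρ1, hρ1, hp1, map_mul, map_mul, map_inv, hqc]
  let b : Idx N := ⟨N, hN, le_rfl⟩
  have hb : ∀ i : Idx N, b ≤ i := fun i => i.le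
  let E : Idx N → Type := fun i => (Fin (n b) → ℝ) →ₗ[ℝ] (Fin (n i) → ℝ)
  let f : ∀ i j : Idx N, i ≤ j → E j →ₗ[ℝ] E i := fun i j h =>
    { toFun := fun s => (p i j h).comp s
      map_add' := fun s s' => LinearMap.comp_add s s' (p i j h)
      map_smul' := fun a s => LinearMap.comp_smul (p i j h) a s }
  have hf : ∀ i j h (s : E j) (v : Fin (n b) → ℝ), f i j h s v = p i j h (s v) :=
    fun _ _ _ _ _ => rfl
  let A : ∀ i : Idx N, Set (E i) := fun i =>
    {s | (∀ v, p b i (hb i) (s v) = v) ∧ ∀ (k : K) v, s (ρ b k v) = ρ i k (s v)}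
  have : Nonempty (Idx N) := ⟨b⟩
  obtain ⟨s, hsA, hsf⟩ := hAFF (Idx N) E f A
    (fun i j => ⟨⟨i.sub ⊓ j.sub, i.good.inf j.good, inf_le_left.trans i.le⟩,
      (inf_le_left : i.sub ⊓ j.sub ≤ i.sub), (inf_le_right : i.sub ⊓ j.sub ≤ j.sub)⟩)
    (fun i j k hij hjk x => by
      refine LinearMap.ext fun v => ?_
      show p i j hij (p j k hjk (x v)) = p i k (hij.trans hjk) (x v)
      exact hpp i j k hij hjk (x v))
    (fun i => by
      obtain ⟨s, hs1, hs2⟩ := hAVG K (n b) (n i) (ρ b) (ρ i) (hρ2 b) (hρ3 b) (hρ4 b) (hρ2 i)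
        (hρ3 i) (hρ4 i) (p b i (hb i)) (hps b i (hb i)) (hpρ b i (hb i))
      exact ⟨s, hs1, hs2⟩)
    (fun i x hx y hy t => by
      refine ⟨fun v => ?_, fun k v => ?_⟩
      · show p b i (hb i) ((1 - t) • x v + t • y v) = v
        rw [map_add, map_smul, map_smul, hx.1, hy.1, ← add_smul]
        simp
      · show (1 - t) • x (ρ b k v) + t • y (ρ b k v) = ρ i k ((1 - t) • x v + t • y v)
        rw [hx.2, hy.2, map_add, map_smul, map_smul])
    (fun i j hij x hx => by
      refine ⟨fun v => ?_, fun k v => ?_⟩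
      · show p b i (hb i) (p i j hij (x v)) = v
        rw [hpp]
        exact hx.1 v
      · show p i j hij (x (ρ b k v)) = ρ i k (p i j hij (x v))
        rw [hx.2, hpρ])
  have hsc : ∀ (i j : Idx N) (h : i ≤ j) v, p i j h (s j v) = s i v := fun i j h v =>
    (hf i j h (s j) v).symm.trans (by rw [hsf i j h])
  have hcts : ∀ (T : Type) [TopologicalSpace T] (φ : T → G),
      (∀ i : Idx N, Continuous fun t => (QuotientGroup.mk (φ t) : G ⧸ i.sub)) → Continuous φ :=
    fun T _ φ h => hCTS G hG N hN T φ fun N' hN' hle => h ⟨N', hN', hle⟩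
  -- gluing
  let C : (Fin (n b) → ℝ) → ℝ → Subgroup G → Set G := fun v t M =>
    {x | ∀ i : Idx N, i.sub = M → (QuotientGroup.mk x : G ⧸ i.sub) = e i (s i v) t}
  have hC : ∀ v t (i : Idx N) x, x ∈ C v t i.sub ↔
      (QuotientGroup.mk x : G ⧸ i.sub) = e i (s i v) t := by
    intro v t i x
    constructor
    · intro h
      exact h i rfl
    · rintro h ⟨M, hM1, hM2⟩ hi
      have hi' : M = i.sub := hi
      subst hi'
      exact h
  have hglue : ∀ v t, ∃! g : G, ∀ N', Good N' → N' ≤ N → g ∈ C v t N' := by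
    intro v t
    refine hGLU G hG N hN (C v t) ?_ ?_
    · intro N' hN' hle
      obtain ⟨g, hg⟩ := QuotientGroup.mk_surjective (e ⟨N', hN', hle⟩ (s ⟨N', hN', hle⟩ v) t)
      refine ⟨g, ?_⟩
      ext x
      rw [hC v t ⟨N', hN', hle⟩ x, ← hg, eq_comm, QuotientGroup.eq]
      rfl
    · intro N' N'' hN' hN'' hle hle' x hx
      have h1 := (hC v t ⟨N'', hN'', hle.trans hle'⟩ x).1 hx
      refine (hC v t ⟨N', hN', hle'⟩ x).2 ?_
      have h2 := congrArg (qmap ⟨N', hN', hle'⟩ ⟨N'', hN'', hle.trans hle'⟩ hle) h1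
      rw [← hp1, hsc] at h2
      exact h2
  choose j hj1 hj2 using hglue
  have hj : ∀ v t (i : Idx N), (QuotientGroup.mk (j v t) : G ⧸ i.sub) = e i (s i v) t :=
    fun v t i => (hC v t i _).1 (hj1 v t i.sub i.good i.le)
  have huniq : ∀ v t g, (∀ i : Idx N, (QuotientGroup.mk g : G ⧸ i.sub) = e i (s i v) t) →
      g = j v t := fun v t g hg =>
    hj2 v t g fun N' hN' hle => (hC v t ⟨N', hN', hle⟩ g).2 (hg _)
  refine ⟨n b, e b, ρ b, j, he b, hρ2 b, hρ3 b, hρ4 b, ?_, ?_, ?_, ?_⟩
  · intro v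
    refine ⟨?_, ?_⟩
    · refine hcts ℝ (j v) fun i => ?_
      have h1 : (fun t => (QuotientGroup.mk (j v t) : G ⧸ i.sub)) = e i (s i v) := by
        funext t
        exact hj v t i
      rw [h1]
      exact ((he i).ops _).cont
    · intro a a'
      refine (huniq v (a + a') (j v a * j v a') fun i => ?_).symm
      rw [((he i).ops _).add, ← hj, ← hj]
      rfl
  · intro v t
    have h1 := hj v t b
    have h2 : s b v = v := by
      have h3 := (hsA b).1 v
      rwa [hpid] at h3
    rw [h2] at h1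
    exact h1
  · intro k v t
    refine (huniq _ _ _ fun i => ?_).symm
    rw [(hsA i).2, hρ1, ← hj]
    rfl
  · refine hcts _ (fun v => j v 1) fun i => ?_
    have h1 : (fun v => (QuotientGroup.mk (j v 1) : G ⧸ i.sub)) =
        (fun w => e i w 1) ∘ (s i) := by
      funext v
      exact hj v 1 i
    rw [h1]
    exact (he i).cont.comp (LinearMap.continuous_of_finiteDimensional _)

end Pool.Agent.H95.GY
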