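import Pool.Agent.H95.GY.Targets

/-!
# Module LIE
-/

set_option autoImplicit false

universe u

namespace Pool.Agent.H95.GY

theorem pf_LIE (hNM : T_NM.{u}) (hBMP : T_BMP.{u}) (hCH : T_CH.{u}) : T_LIE.{u} := by
  intro Q _ _ _ _ _ hQ
  obtain ⟨ν, r, C, h⟩ := hNM Q hQ
  obtain ⟨φ, r', C', h'⟩ := hBMP Q ν r C h
  exact hCH Q ν φ r' C' h'

end Pool.Agent.H95.GY
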