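import Pool.Agent.H18.GY.AD
import Pool.Agent.H66.GY.AFF
import Pool.Agent.H29.GY.ARC
import Pool.Agent.H3.GY.AVG
import Pool.Agent.H69.GY.BMP
import Pool.Agent.H29.GY.CAR
import Pool.Agent.H48.GY.CH
import Pool.Agent.H86.GY.CTS
import Pool.Agent.H18.GY.CUB
import Pool.Agent.H14.GY.DD
import Pool.Agent.H71.GY.DIM
import Pool.Agent.H68.GY.EL
import Pool.Agent.H71.GY.EXT
import Pool.Agent.H58.GY.FAM
import Pool.Agent.H58.GY.FF
import Pool.Agent.H91.GY.FIN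
import Pool.Agent.H3.GY.FUN
import Pool.Agent.H86.GY.GLU
import Pool.Agent.H59.GY.GYS
import Pool.Agent.H91.GY.HA
import Pool.Agent.H71.GY.HB
import Pool.Agent.H74.GY.HC
import Pool.Agent.H69.GY.HL
import Pool.Agent.H66.GY.HP
import Pool.Agent.H42.GY.HS
import Pool.Agent.H33.GY.HU
import Pool.Agent.H31.GY.HW
import Pool.Agent.H17.GY.LCN
import Pool.Agent.H48.GY.LEB
import Pool.Agent.H95.GY.LFT
import Pool.Agent.H95.GY.LIE
import Pool.Agent.H29.GY.LS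
import Pool.Agent.H95.GY2.MET
import Pool.Agent.H31.GY.N1
import Pool.Agent.H42.GY.N2
import Pool.Agent.H74.GY.NM
import Pool.Agent.H68.GY.NOR
import Pool.Agent.H17.GY.OPN
import Pool.Agent.H95.GY2.PWK
import Pool.Agent.H89.GY.QNS
import Pool.Agent.H78.GY.RET
import Pool.Agent.H14.GY.RHO
import Pool.Agent.H56.GY.SEC
import Pool.Agent.H17.GY.SLC
import Pool.Agent.H47.GY.STO
import Pool.Agent.H33.GY.TR
import Pool.Agent.H47.GY.TUB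
import Pool.Agent.H58.GY.UL
import Pool.Agent.H74.GY.ULM
import Pool.Agent.H47.GY.UP

/-!
# MP_c39b0e_gt: assembly of the modules of the board gy_modules
-/

set_option autoImplicit false

universe u v

namespace Pool.Agent.H95.GY.Asm

open Pool.Agent.H95.GY

theorem all : T_FIN.{u, v} := by
  have hMET : T_MET.{u} := Pool.Agent.H95.GY2.pf_MET 
  have hPWK : T_PWK.{u} := Pool.Agent.H95.GY2.pf_PWK hMET
  have hNOR : T_NOR.{u} := Pool.Agent.H68.GY.pf_NOR hPWK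
  have hEL : T_EL.{u} := Pool.Agent.H68.GY.pf_EL 
  have hUL : T_UL.{u, u} := Pool.Agent.H58.GY.pf_UL
  have hUL0 : T_UL.{u, 0} := Pool.Agent.H58.GY.pf_UL
  have hTR : T_TR.{u} := Pool.Agent.H33.GY.pf_TR hEL hUL hNOR
  have hGYS : T_GYS.{u} := Pool.Agent.H59.GY.pf_GYS hTR hNOR
  have hFAM : T_FAM.{u} := Pool.Agent.H58.GY.pf_FAM hGYS
  have hQNS : T_QNS.{u} := Pool.Agent.H89.GY.pf_QNS 
  have hN1 : T_N1.{u} := Pool.Agent.H31.GY.pf_N1 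
  have hN2 : T_N2.{u} := Pool.Agent.H42.GY.pf_N2 hEL hUL0 hN1
  have hNM : T_NM.{u} := Pool.Agent.H74.GY.pf_NM hN1 hN2
  have hBMP : T_BMP.{u} := Pool.Agent.H69.GY.pf_BMP 
  have hFF : T_FF.{u} := Pool.Agent.H58.GY.pf_FF 
  have hUP : T_UP.{u} := Pool.Agent.H47.GY.pf_UP 
  have hRHO : T_RHO.{u} := Pool.Agent.H95.GY.pf_RHO 
  have hDD : T_DD.{u} := Pool.Agent.H95.GY.pf_DD 
  have hHB : T_HB.{u} := Pool.Agent.H71.GY.pf_HB 
  have hHU : T_HU.{u} := Pool.Agent.H33.GY.pf_HU hUP hRHO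
  have hULM : T_ULM.{u} := Pool.Agent.H74.GY.pf_ULM hRHO hDD
  have hHS : T_HS.{u} := Pool.Agent.H42.GY.pf_HS hULM hHB hHU hRHO
  have hHC : T_HC.{u} := Pool.Agent.H74.GY.pf_HC hHB hDD
  have hHL : T_HL.{u} := Pool.Agent.H69.GY.pf_HL hUP hHB
  have hHP : T_HP.{u} := Pool.Agent.H66.GY.pf_HP hFF hHB hHS hHU
  have hHW : T_HW.{u} := Pool.Agent.H31.GY.pf_HW hHB
  have hHA : T_HA.{u} := Pool.Agent.H91.GY.pf_HA hULM
  have hLS : T_LS.{u} := Pool.Agent.H29.GY.pf_LS hHU hHS hHC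
  have hCH : T_CH.{u} := Pool.Agent.H48.GY.CH.pf_CH hLS hHU hHS hHB hRHO hDD hHL hHP hHW hHA
  have hLIE : T_LIE.{u} := Pool.Agent.H95.GY.pf_LIE hNM hBMP hCH
  have hFUN : T_FUN.{u} := Pool.Agent.H3.GY.pf_FUN 
  have hAD : T_AD.{u} := Pool.Agent.H18.GY.pf_AD hFUN
  have hAVG : T_AVG.{u} := Pool.Agent.H3.GY.pf_AVG 
  have hAFF : T_AFF.{u} := Pool.Agent.H66.GY.pf_AFF 
  have hGLU : T_GLU.{u} := Pool.Agent.H86.GY.pf_GLU 
  have hCTS : T_CTS.{u, 0} := Pool.Agent.H86.GY.pf_CTS 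
  have hLFT : T_LFT.{u} := Pool.Agent.H95.GY.pf_LFT hLIE hQNS hFUN hAD hAVG hAFF hGLU hCTS
  have hSEC : T_SEC.{u} := Pool.Agent.H56.GY.pf_SEC hLFT
  have hCAR : T_CAR.{u} := Pool.Agent.H29.GY.pf_CAR 
  have hTUB : T_TUB.{u} := Pool.Agent.H47.GY.pf_TUB hCAR
  have hEXT : T_EXT.{u} := Pool.Agent.H71.GY.pf_EXT 
  have hSLC : T_SLC.{u} := Pool.Agent.H17.GY.pf_SLC hPWK hTUB hEXT
  have hRET : T_RET.{u} := Pool.Agent.H78.GY.pf_RET hQNS hSLC hSEC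
  have hSTO : T_STO.{u, v} := Pool.Agent.H47.GY.pf_STO 
  have hOPN : T_OPN.{u} := Pool.Agent.H17.GY.pf_OPN hLIE
  have hARC : T_ARC.{u} := Pool.Agent.H29.GY.pf_ARC hLFT hOPN hQNS
  have hLEB : T_LEB := Pool.Agent.H48.GY.LEB.pf_LEB 
  have hCUB : T_CUB.{u} := Pool.Agent.H18.GY.pf_CUB hLEB
  have hDIM : T_DIM.{u} := Pool.Agent.H71.GY.pf_DIM hARC hCUB
  have hLCN : T_LCN.{u} := Pool.Agent.H17.GY.pf_LCN hRET
  have hFIN : T_FIN.{u, v} := Pool.Agent.H91.GY.pf_FIN hFAM hDIM hLCN hRET hSTO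
  exact hFIN

end Pool.Agent.H95.GY.Asm
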