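import Pool.Agent.H95.GY.Red

/-!
# MP_c39b0e_gt: definitions for the structure theory (board gy_modules)
-/

set_option autoImplicit false

open Filter Topology MeasureTheory Set
open scoped Pointwise

universe u v

namespace Pool.Agent.H95.GY

section Sets

variable {G : Type u} [Group G]

/-- products of elements of `S` of total weight at most `s` -/
def Bw (S : Set G) (r : G → ℝ) (s : ℝ) : Set G :=
  {x | ∃ l : List G, (∀ g ∈ l, g ∈ S) ∧ (l.map r).sum ≤ s ∧ l.prod = x}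

/-- the elements all of whose powers lie in `V` -/
def Pw (V : Set G) : Set G := {g | ∀ n : ℤ, g ^ n ∈ V}

theorem one_mem_Pw {V : Set G} (h : (1 : G) ∈ V) : (1 : G) ∈ Pw V := fun n => by
  rwa [one_zpow]

theorem inv_mem_Pw {V : Set G} {g : G} (h : g ∈ Pw V) : g⁻¹ ∈ Pw V := fun n => by
  have := h (-n)
  rwa [inv_zpow, ← zpow_neg]

theorem zpow_mem_Pw {V : Set G} {g : G} (h : g ∈ Pw V) (m : ℤ) : g ^ m ∈ Pw V := fun n => by
  have := h (m * n)
  rwa [zpow_mul] at this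

theorem Pw_mono {V W : Set G} (h : V ⊆ W) : Pw V ⊆ Pw W := fun _ hg n => h (hg n)

theorem Pw_subset {V : Set G} : Pw V ⊆ V := fun g hg => by
  have := hg 1
  rwa [zpow_one] at this

/-- the exit function: infimum of the numbers `1 / (n + 1)` such that `g ^ i` stays in `U` for all
`i ≤ n`. -/
noncomputable def esc (U : Set G) (g : G) : ℝ :=
  sInf {x : ℝ | ∃ n : ℕ, x = 1 / ((n : ℝ) + 1) ∧ ∀ i ≤ n, g ^ i ∈ U}

end Sets

section Top

variable {G : Type u} [Group G] [TopologicalSpace G]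

/-- `N` contains all subgroups which are contained in a suitable open neighbourhood of `N` -/
def IsTrap (N : Subgroup G) : Prop :=
  ∃ O : Set G, IsOpen O ∧ (N : Set G) ⊆ O ∧ ∀ H : Subgroup G, (H : Set G) ⊆ O → H ≤ N

/-- no small subgroups -/
def NSS (G : Type u) [Group G] [TopologicalSpace G] : Prop := IsTrap (⊥ : Subgroup G)

/-- compact normal subgroups whose quotient has no small subgroups -/
structure Good (N : Subgroup G) : Prop where
  normal : N.Normal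
  compact : IsCompact (N : Set G)
  trap : IsTrap N

/-- there are arbitrarily small good subgroups -/
def SmallGood (G : Type u) [Group G] [TopologicalSpace G] : Prop :=
  ∀ U ∈ 𝓝 (1 : G), ∃ N : Subgroup G, Good N ∧ (N : Set G) ⊆ U

theorem IsTrap.inf {N N' : Subgroup G} (h : IsTrap N) (h' : IsTrap N') : IsTrap (N ⊓ N') := by
  obtain ⟨O, hO, hN, hH⟩ := h
  obtain ⟨O', hO', hN', hH'⟩ := h'
  refine ⟨O ∩ O', hO.inter hO', ?_, fun H hHO => ?_⟩
  · intro x hx
    exact ⟨hN hx.1, hN' hx.2⟩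
  · exact le_inf (hH H (hHO.trans inter_subset_left)) (hH' H (hHO.trans inter_subset_right))

/-- a one-parameter group -/
structure IsOPS (X : ℝ → G) : Prop where
  cont : Continuous X
  add : ∀ s t, X (s + t) = X s * X t

theorem IsOPS.zero {X : ℝ → G} (h : IsOPS X) : X 0 = 1 := by
  have h1 := h.add 0 0
  rw [add_zero] at h1
  exact left_eq_mul.1 h1

theorem IsOPS.neg {X : ℝ → G} (h : IsOPS X) (t : ℝ) : X (-t) = (X t)⁻¹ := by
  have h1 := h.add t (-t)
  rw [add_neg_cancel, h.zero] at h1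
  exact (inv_eq_of_mul_eq_one_right h1.symm).symm

theorem IsOPS.comm {X : ℝ → G} (h : IsOPS X) (s t : ℝ) : X s * X t = X t * X s := by
  rw [← h.add, add_comm, h.add]

theorem IsOPS.nsmul {X : ℝ → G} (h : IsOPS X) (n : ℕ) (t : ℝ) : X (n * t) = X t ^ n := by
  induction n with
  | zero => simp [h.zero]
  | succ n ih => rw [Nat.cast_succ, add_mul, one_mul, h.add, ih, pow_succ]

theorem IsOPS.div {X : ℝ → G} (h : IsOPS X) {n : ℕ} (hn : n ≠ 0) (t : ℝ) :
    X (t / n) ^ n = X t := by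
  rw [← h.nsmul, mul_div_cancel₀]
  exact_mod_cast hn

theorem IsOPS.scale {X : ℝ → G} (h : IsOPS X) (c : ℝ) : IsOPS fun t => X (c * t) :=
  ⟨h.cont.comp (continuous_const.mul continuous_id), fun s t => by rw [mul_add, h.add]⟩

theorem IsOPS.map {Q : Type v} [Group Q] [TopologicalSpace Q] {X : ℝ → G} (h : IsOPS X)
    (f : G →* Q) (hf : Continuous f) : IsOPS fun t => f (X t) :=
  ⟨hf.comp h.cont, fun s t => by rw [h.add, map_mul]⟩

theorem IsOPS.conj [IsTopologicalGroup G] {X : ℝ → G} (h : IsOPS X) (g : G) :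
    IsOPS fun t => g * X t * g⁻¹ :=
  ⟨(continuous_const.mul h.cont).mul continuous_const, fun s t => by
    rw [h.add]; group⟩

/-- a linear chart of the one-parameter groups of `Q`: the exponential map `v ↦ e v 1` is a local
homeomorphism at `0` -/
structure Chart (Q : Type u) [Group Q] [TopologicalSpace Q] (n : ℕ)
    (e : (Fin n → ℝ) → ℝ → Q) : Prop where
  ops : ∀ v, IsOPS (e v)
  surj : ∀ X : ℝ → Q, IsOPS X → ∃ v, e v = X
  inj : Function.Injective e
  smul : ∀ (c : ℝ) (v : Fin n → ℝ) (t : ℝ), e (c • v) t = e v (c * t)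
  add : ∀ (v w : Fin n → ℝ) (t : ℝ),
    Tendsto (fun m : ℕ => (e v (t / m) * e w (t / m)) ^ m) atTop (𝓝 (e (v + w) t))
  cont : Continuous fun v => e v 1
  loc : ∃ δ > 0, InjOn (fun v => e v 1) (Metric.closedBall 0 δ)
  nhd : ∀ ε > 0, (fun v => e v 1) '' Metric.closedBall 0 ε ∈ 𝓝 (1 : Q)

/-- a norm with the escape property -/
structure PreG {Q : Type u} [Group Q] [TopologicalSpace Q] (ν : Q → ℝ) (r C : ℝ) : Prop where
  r_pos : 0 < r
  C_pos : 1 ≤ C
  nonneg : ∀ g, 0 ≤ ν g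
  le_one : ∀ g, ν g ≤ 1
  one : ν 1 = 0
  inv : ∀ g, ν g⁻¹ = ν g
  mul : ∀ g h, ν (g * h) ≤ ν g + ν h
  small : ∀ U ∈ 𝓝 (1 : Q), ∃ ε > 0, ∀ g, ν g < ε → g ∈ U
  nhd : ∀ ε > 0, {g | ν g < ε} ∈ 𝓝 (1 : Q)
  cpt : IsCompact {g | ν g ≤ r}
  esc : ∀ (g : Q) (n : ℕ), n * ν g ≤ r → n * ν g ≤ C * ν (g ^ n)
  conj : ∀ g h, ν h ≤ r → ν (h * g * h⁻¹) ≤ C * ν g

/-- Gleason data: a norm with the escape property and the commutator estimate, and a function of
class `C^{1,1}` which measures it -/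
structure GD {Q : Type u} [Group Q] [TopologicalSpace Q] (ν φ : Q → ℝ) (r C : ℝ) : Prop
    extends PreG ν r C where
  comm : ∀ g h, ν g ≤ r → ν h ≤ r → ν (g * h * g⁻¹ * h⁻¹) ≤ C * ν g * ν h
  phi_cont : Continuous φ
  phi_bd : ∀ x, |φ x| ≤ C
  lip : ∀ k x, |φ (k * x) - φ x| ≤ C * ν k
  low : ∀ k, ∃ x, ν k ≤ C * |φ (k * x) - φ x|
  sec : ∀ g h x, ν g ≤ r → |φ (g * h * x) - φ (g * x) - φ (h * x) + φ x| ≤ C * ν g * ν h

/-- `X` is a one-parameter group and `D` is its derivative at `φ` -/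
def HasD (φ : G → ℝ) (X : ℝ → G) (D : G → ℝ) : Prop :=
  IsOPS X ∧ ∃ c > 0, ∃ t₀ > 0, ∀ (t : ℝ) (x : G), |t| ≤ t₀ →
    |φ (X t * x) - φ x - t * D x| ≤ c * t ^ 2

/-- a retraction of a neighbourhood of `K` to `K` which is equivariant on both sides -/
def HasRetr (K : Subgroup G) : Prop :=
  ∃ (U : Set G) (ρ : G → G), IsOpen U ∧ (K : Set G) ⊆ U ∧ ContinuousOn ρ U ∧
    (∀ x ∈ U, ρ x ∈ K) ∧ (∀ k ∈ K, ρ k = k) ∧
    ∀ k₁ ∈ K, ∀ k₂ ∈ K, ∀ x ∈ U, k₁ * x * k₂ ∈ U ∧ ρ (k₁ * x * k₂) = k₁ * ρ x * k₂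

end Top

section Basic

variable {G : Type u} [Group G] [TopologicalSpace G] [IsTopologicalGroup G] [T2Space G]

theorem Good.inf {N N' : Subgroup G} (h : Good N) (h' : Good N') : Good (N ⊓ N') := by
  refine ⟨?_, ?_, h.trap.inf h'.trap⟩
  · haveI := h.normal
    haveI := h'.normal
    infer_instance
  · rw [Subgroup.coe_inf]
    exact h.compact.inter_right h'.compact.isClosed

theorem SmallGood.exists_le (hG : SmallGood G) {N : Subgroup G} (hN : Good N) {U : Set G}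
    (hU : U ∈ 𝓝 (1 : G)) : ∃ N', Good N' ∧ N' ≤ N ∧ (N' : Set G) ⊆ U := by
  obtain ⟨M, hM, hMU⟩ := hG U hU
  exact ⟨N ⊓ M, hN.inf hM, inf_le_left, fun x hx => hMU hx.2⟩

end Basic

end Pool.Agent.H95.GY
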