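import Mathlib

/-!
# MP_c39b0e_gt: definitions, and the reduction to almost connected groups

(copy of Results/MP_c39b0e_gt/AlmostConnectedReduction.lean)
-/

open Topology Set

namespace Pool.Agent.H95.GY

section structure_part

variable {G : Type*} [Group G] [TopologicalSpace G] [IsTopologicalGroup G]

/-- Almost connected: `G` modulo its identity component is compact. -/
def AlmostConnected (G : Type*) [Group G] [TopologicalSpace G] [IsTopologicalGroup G] : Prop :=
  CompactSpace (G ⧸ Subgroup.connectedComponentOfOne G)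

instance normal_cc : (Subgroup.connectedComponentOfOne G).Normal := by
  refine ⟨fun n hn g => ?_⟩
  have hc : Continuous (fun x : G => g * x * g⁻¹) := by fun_prop
  have h1 : (fun x : G => g * x * g⁻¹) '' connectedComponent (1 : G) ⊆
      connectedComponent ((fun x : G => g * x * g⁻¹) 1) :=
    hc.image_connectedComponent_subset 1
  have h2 : (fun x : G => g * x * g⁻¹) 1 = 1 := by simp
  rw [h2] at h1
  exact h1 ⟨n, hn, rfl⟩

theorem coset_connected (y : G ⧸ Subgroup.connectedComponentOfOne G) :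
    IsConnected ((QuotientGroup.mk : G → G ⧸ Subgroup.connectedComponentOfOne G) ⁻¹' {y}) := by
  obtain ⟨g, rfl⟩ := QuotientGroup.mk_surjective y
  have : (QuotientGroup.mk : G → G ⧸ Subgroup.connectedComponentOfOne G) ⁻¹'
      {(QuotientGroup.mk g)} = (fun x => g * x) '' connectedComponent (1 : G) := by
    ext x
    simp only [mem_preimage, mem_singleton_iff, mem_image]
    constructor
    · intro h
      exact ⟨g⁻¹ * x, QuotientGroup.eq.1 h.symm, by group⟩
    · rintro ⟨k, hk, rfl⟩
      exact (QuotientGroup.eq.2 (by rw [inv_mul_cancel_left]; exact hk)).symm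
  rw [this]
  exact isConnected_connectedComponent.image _ (continuous_const_mul g).continuousOn

instance totDisc : TotallyDisconnectedSpace (G ⧸ Subgroup.connectedComponentOfOne G) := by
  rw [totallyDisconnectedSpace_iff_connectedComponent_singleton]
  intro y
  obtain ⟨g, rfl⟩ := QuotientGroup.mk_surjective y
  have hco : IsCoinducing (QuotientGroup.mk : G → G ⧸ Subgroup.connectedComponentOfOne G) :=
    isQuotientMap_quotient_mk'.isCoinducing
  have h1 := hco.preimage_connectedComponent coset_connected g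
  have h2 : ∀ x ∈ connectedComponent g, g⁻¹ * x ∈ connectedComponent (1 : G) := by
    have h3 := (continuous_const_mul g⁻¹).image_connectedComponent_subset g
    simp only [inv_mul_cancel] at h3
    exact fun x hx => h3 ⟨x, hx, rfl⟩
  apply subset_antisymm
  · intro z hz
    obtain ⟨x, rfl⟩ := QuotientGroup.mk_surjective z
    have hx : x ∈ connectedComponent g := by rw [← h1]; exact hz
    exact (QuotientGroup.eq.2 (h2 x hx)).symm
  · intro z hz
    rw [hz]
    exact mem_connectedComponent

/-- In a totally disconnected locally compact Hausdorff group every compact subgroup is contained in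
a compact open subgroup. -/
theorem exists_compact_open {Q : Type*} [Group Q] [TopologicalSpace Q] [IsTopologicalGroup Q]
    [LocallyCompactSpace Q] [T2Space Q] [TotallyDisconnectedSpace Q] (K : Subgroup Q)
    (hK : IsCompact (K : Set Q)) :
    ∃ H : Subgroup Q, K ≤ H ∧ IsOpen (H : Set Q) ∧ IsCompact (H : Set Q) := by
  classical
  -- a compact open set containing `K`
  have hpt : ∀ x : Q, ∃ W : Set Q, IsClopen W ∧ IsCompact W ∧ x ∈ W := by
    intro x
    obtain ⟨C, hC, hxC⟩ := exists_compact_mem_nhds x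
    obtain ⟨W, hW, hxW, hWC⟩ := (loc_compact_Haus_tot_disc_of_zero_dim (H := Q)).mem_nhds_iff.1 hxC
    exact ⟨W, hW, hC.of_isClosed_subset hW.isClosed hWC, hxW⟩
  choose Wf hWclopen hWcomp hxW using hpt
  obtain ⟨t, ht⟩ := hK.elim_finite_subcover Wf (fun x => (hWclopen x).isOpen)
    (fun x _ => mem_iUnion.2 ⟨x, hxW x⟩)
  set W : Set Q := ⋃ x ∈ t, Wf x with hWdef
  have hWo : IsOpen W := isOpen_biUnion fun x _ => (hWclopen x).isOpen
  have hWc : IsCompact W := t.finite_toSet.isCompact_biUnion fun x _ => hWcomp x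
  -- the left `K`-invariant core of `W`
  set V : Set Q := {x | ∀ k ∈ K, k * x ∈ W} with hV
  have hVcl : IsClosed V := by
    have : V = ⋂ k ∈ K, (fun x => k * x) ⁻¹' W := by
      ext x; simp [hV]
    rw [this]
    exact isClosed_biInter fun k _ => hWc.isClosed.preimage (continuous_const_mul k)
  have hVW : V ⊆ W := fun x hx => by simpa using hx 1 K.one_mem
  have hVc : IsCompact V := hWc.of_isClosed_subset hVcl hVW
  have hVo : IsOpen V := by
    rw [isOpen_iff_mem_nhds]
    intro x hx
    have h1 : ∀ k ∈ (K : Set Q), ∀ᶠ p : Q × Q in 𝓝 k ×ˢ 𝓝 x, p.1 * p.2 ∈ W := by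
      intro k hk
      rw [← nhds_prod_eq]
      exact continuous_mul.continuousAt.eventually_mem (hWo.mem_nhds (hx k hk))
    have h2 : ∀ᶠ y in 𝓝 x, ∀ k ∈ (K : Set Q), k * y ∈ W := by
      exact hK.eventually_forall_of_forall_eventually (fun k hk => by
        have := h1 k hk
        rw [← nhds_prod_eq] at this
        exact (continuous_swap.tendsto (x, k)).eventually this)
    exact h2
  have hV1 : (1 : Q) ∈ V := by
    intro k hk
    rw [mul_one]
    exact ht hk
  have hKV : ∀ k ∈ K, ∀ x ∈ V, k * x ∈ V := by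
    intro k hk x hx k' hk'
    rw [← mul_assoc]
    exact hx _ (K.mul_mem hk' hk)
  -- the stabilizer
  let H : Subgroup Q :=
    { carrier := {q | (∀ x ∈ V, q * x ∈ V) ∧ (∀ x ∈ V, q⁻¹ * x ∈ V)}
      one_mem' := by constructor <;> intro x hx <;> simpa using hx
      mul_mem' := by
        rintro a b ⟨ha, ha'⟩ ⟨hb, hb'⟩
        refine ⟨fun x hx => ?_, fun x hx => ?_⟩
        · rw [mul_assoc]; exact ha _ (hb x hx)
        · rw [mul_inv_rev, mul_assoc]; exact hb' _ (ha' x hx)
      inv_mem' := by
        rintro a ⟨ha, ha'⟩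
        exact ⟨ha', by simpa using ha⟩ }
  have hHo : IsOpen (H : Set Q) := by
    apply H.isOpen_of_mem_nhds (g := 1)
    have h1 : ∀ᶠ q in 𝓝 (1 : Q), ∀ x ∈ V, q * x ∈ V := by
      refine hVc.eventually_forall_of_forall_eventually (fun x hx => ?_)
      have : ContinuousAt (fun p : Q × Q => p.1 * p.2) (1, x) := continuous_mul.continuousAt
      exact this.eventually_mem (hVo.mem_nhds (by simpa using hx))
    have h2 : ∀ᶠ q in 𝓝 (1 : Q), ∀ x ∈ V, q⁻¹ * x ∈ V := by
      have h3 : Filter.Tendsto (fun q : Q => q⁻¹) (𝓝 1) (𝓝 1) := by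
        have := (continuous_inv (G := Q)).tendsto 1
        rwa [inv_one] at this
      exact h3.eventually h1
    exact h1.and h2
  refine ⟨H, ?_, hHo, ?_⟩
  · intro k hk
    exact ⟨hKV k hk, hKV _ (K.inv_mem hk)⟩
  · refine hVc.of_isClosed_subset (H.isClosed_of_isOpen hHo) ?_
    rintro q ⟨hq, -⟩
    simpa using hq 1 hV1

/-- Every compact subgroup of a locally compact Hausdorff group is contained in an open almost
connected subgroup. -/
theorem exists_open_almostConnected [LocallyCompactSpace G] [T2Space G] (K : Subgroup G)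
    (hK : IsCompact (K : Set G)) :
    ∃ H : Subgroup G, K ≤ H ∧ IsOpen (H : Set G) ∧ AlmostConnected H := by
  classical
  set G₀ := Subgroup.connectedComponentOfOne G with hG₀
  have hcl : IsClosed (G₀ : Set G) := isClosed_connectedComponent
  have : T3Space (G ⧸ G₀) := inferInstance
  obtain ⟨H', hKH', hH'o, hH'c⟩ := exists_compact_open (K.map (QuotientGroup.mk' G₀)) (by
    have := hK.image (QuotientGroup.continuous_mk (N := G₀))
    simpa using this)
  set H : Subgroup G := H'.comap (QuotientGroup.mk' G₀) with hH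
  have hHo : IsOpen (H : Set G) := hH'o.preimage QuotientGroup.continuous_mk
  have hHcl : IsClosed (H : Set G) := H.isClosed_of_isOpen hHo
  refine ⟨H, ?_, hHo, ?_⟩
  · intro k hk
    exact hKH' ⟨k, hk, rfl⟩
  -- a compact set in `G` covering `H'`
  obtain ⟨C, hC, hCH⟩ : ∃ C : Set G, IsCompact C ∧ (H' : Set (G ⧸ G₀)) ⊆ QuotientGroup.mk '' C := by
    have hpt : ∀ x : G, ∃ C : Set G, IsCompact C ∧ C ∈ 𝓝 x := fun x => exists_compact_mem_nhds x
    choose Cf hCf hxC using hpt
    obtain ⟨t, ht⟩ := hH'c.elim_finite_subcover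
      (fun x : G => (QuotientGroup.mk : G → G ⧸ G₀) '' interior (Cf x))
      (fun x => QuotientGroup.isOpenMap_coe _ isOpen_interior) (by
        intro y _
        obtain ⟨x, rfl⟩ := QuotientGroup.mk_surjective y
        exact mem_iUnion.2 ⟨x, x, mem_interior_iff_mem_nhds.2 (hxC x), rfl⟩)
    refine ⟨⋃ x ∈ t, Cf x, t.finite_toSet.isCompact_biUnion fun x _ => hCf x, ?_⟩
    intro y hy
    obtain ⟨x, hx, z, hz, rfl⟩ := by simpa only [mem_iUnion, exists_prop] using ht hy
    exact ⟨z, mem_biUnion hx (interior_subset hz), rfl⟩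
  -- identity components
  have hcomp : ∀ g ∈ G₀, ∀ hg : g ∈ H, (⟨g, hg⟩ : H) ∈ Subgroup.connectedComponentOfOne H := by
    intro g hg hgH
    have hsub : (G₀ : Set G) ⊆ (H : Set G) := by
      intro x hx
      change QuotientGroup.mk' G₀ x ∈ H'
      have : QuotientGroup.mk' G₀ x = 1 := (QuotientGroup.eq_one_iff x).2 hx
      rw [this]; exact H'.one_mem
    have hconn : IsPreconnected ((Subtype.val : H → G) ⁻¹' (G₀ : Set G)) := by
      have h1 : IsPreconnected (G₀ : Set G) := isPreconnected_connectedComponent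
      refine (IsInducing.subtypeVal.isPreconnected_image).1 ?_
      have h2 : (Subtype.val : H → G) '' ((Subtype.val : H → G) ⁻¹' (G₀ : Set G)) = G₀ := by
        ext x
        constructor
        · rintro ⟨y, hy, rfl⟩; exact hy
        · intro hx; exact ⟨⟨x, hsub hx⟩, hx, rfl⟩
      change IsPreconnected ((Subtype.val : H → G) '' ((Subtype.val : H → G) ⁻¹' (G₀ : Set G)))
      rw [h2]
      exact h1
    exact hconn.subset_connectedComponent (x := (1 : H)) (by exact G₀.one_mem) (by exact hg)
  have hCH2 : IsCompact ((Subtype.val : H → G) ⁻¹' C) :=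
    (hHcl.isClosedEmbedding_subtypeVal).isCompact_preimage hC
  refine ⟨?_⟩
  have himg := hCH2.image (QuotientGroup.continuous_mk (N := Subgroup.connectedComponentOfOne H))
  convert himg
  symm
  rw [eq_univ_iff_forall]
  intro y
  obtain ⟨⟨h, hh⟩, rfl⟩ := QuotientGroup.mk_surjective y
  obtain ⟨c, hc, hch⟩ := hCH (show (QuotientGroup.mk h : G ⧸ G₀) ∈ (H' : Set (G ⧸ G₀)) from hh)
  have hcH : c ∈ H := by
    change QuotientGroup.mk' G₀ c ∈ H'
    have : QuotientGroup.mk' G₀ c = QuotientGroup.mk' G₀ h := hch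
    rw [this]; exact hh
  refine ⟨⟨c, hcH⟩, hc, ?_⟩
  rw [QuotientGroup.eq]
  have h3 : c⁻¹ * h ∈ G₀ := QuotientGroup.eq.1 hch
  exact hcomp _ h3 _

end structure_part

section dimension_part

/-- Covering dimension at most `n`: every finite open cover `(U i)` has an open shrinking `(V i)`
that still covers, such that no point lies in more than `n + 1` of the `V i`. -/
def CovDimLE (X : Type*) [TopologicalSpace X] (n : ℕ) : Prop :=
  ∀ (m : ℕ) (U : Fin m → Set X), (∀ i, IsOpen (U i)) → (∀ x, ∃ i, x ∈ U i) →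
    ∃ V : Fin m → Set X, (∀ i, IsOpen (V i)) ∧ (∀ i, V i ⊆ U i) ∧ (∀ x, ∃ i, x ∈ V i) ∧
      ∀ x, {i | x ∈ V i}.ncard ≤ n + 1

theorem CovDimLE.of_clopen {X Y : Type*} [TopologicalSpace X] [TopologicalSpace Y] {n : ℕ}
    (h : CovDimLE X n) (f : Y → X) (hf : IsOpenEmbedding f) (hcl : IsClosed (range f)) :
    CovDimLE Y n := by
  intro m U hU hcov
  rcases Nat.eq_zero_or_pos m with rfl | hm
  · exact ⟨U, hU, fun _ => subset_rfl, hcov, fun x => by
      obtain ⟨i, -⟩ := hcov x
      exact i.elim0⟩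
  obtain ⟨V, hV, hVU, hVc, hVn⟩ := h m (fun i => f '' U i ∪ (range f)ᶜ)
    (fun i => (hf.isOpenMap _ (hU i)).union hcl.isOpen_compl) (by
      intro x
      by_cases hx : x ∈ range f
      · obtain ⟨y, rfl⟩ := hx
        obtain ⟨i, hi⟩ := hcov y
        exact ⟨i, Or.inl ⟨y, hi, rfl⟩⟩
      · exact ⟨⟨0, hm⟩, Or.inr hx⟩)
  refine ⟨fun i => f ⁻¹' V i, fun i => (hV i).preimage hf.continuous, ?_, fun y => hVc (f y),
    fun y => hVn (f y)⟩
  intro i y hy
  rcases hVU i hy with ⟨z, hz, hzy⟩ | h
  · rwa [hf.injective hzy] at hz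
  · exact absurd (mem_range_self y) h

end dimension_part

section twisted

variable {G : Type*} [Group G] (K : Subgroup G) (S : Type*) [MulAction K S]

/-- The orbit relation of the `K`-action `k · (g, s) = (g k⁻¹, k s)` on `G × S`. -/
def twistedSetoid : Setoid (G × S) where
  r p q := ∃ k : K, q = (p.1 * (k : G)⁻¹, k • p.2)
  iseqv :=
    { refl := fun p => ⟨1, by simp⟩
      symm := by
        rintro p q ⟨k, rfl⟩
        exact ⟨k⁻¹, by simp⟩
      trans := by
        rintro p q r ⟨k, rfl⟩ ⟨l, rfl⟩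
        exact ⟨l * k, by simp [mul_assoc, mul_smul]⟩ }

/-- The twisted product `G ×_K S`. -/
def Twisted : Type _ := Quotient (twistedSetoid K S)

/-- the quotient topology -/
instance [TopologicalSpace G] [TopologicalSpace S] : TopologicalSpace (Twisted K S) :=
  inferInstanceAs (TopologicalSpace (Quotient (twistedSetoid K S)))

/-- The class `[g, s]`. -/
def Twisted.mk (p : G × S) : Twisted K S := Quotient.mk (twistedSetoid K S) p

/-- The `G`-action `g' [g, s] = [g' g, s]`. -/
instance : MulAction G (Twisted K S) where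
  smul g' := Quotient.map (fun p : G × S => (g' * p.1, p.2)) (by
    rintro p q ⟨k, rfl⟩
    exact ⟨k, by simp [mul_assoc]⟩)
  one_smul x := by
    induction x using Quotient.inductionOn with
    | h p => exact congrArg (Quotient.mk _) (by simp)
  mul_smul a b x := by
    induction x using Quotient.inductionOn with
    | h p => exact congrArg (Quotient.mk _) (by simp [mul_assoc])

/-- The canonical map `ι : S → G ×_K S`, `s ↦ [1, s]`. -/
def Twisted.incl (s : S) : Twisted K S := Twisted.mk K S (1, s)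

end twisted

/-- `A` is a neighbourhood `K`-equivariant retract of the `K`-space `X`: there are a `K`-invariant
open neighbourhood `U` of `A` and a continuous `K`-equivariant map `r : U → A` with `r a = a` for
all `a ∈ A`. -/
def IsNhdEquivRetract (K : Type*) {X : Type*} [Group K] [TopologicalSpace X] [MulAction K X]
    (A : Set X) : Prop :=
  ∃ U : Set X, IsOpen U ∧ A ⊆ U ∧ (∀ k : K, ∀ x ∈ U, k • x ∈ U) ∧
    ∃ r : X → X, ContinuousOn r U ∧ MapsTo r U A ∧ (∀ k : K, ∀ x ∈ U, r (k • x) = k • r x) ∧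
      ∀ a ∈ A, r a = a

/-- A subgroup `K` is large if `G ⧸ K` is locally connected and finite-dimensional. -/
def IsLarge {G : Type*} [Group G] [TopologicalSpace G] (K : Subgroup G) : Prop :=
  LocallyConnectedSpace (G ⧸ K) ∧ ∃ n, CovDimLE (G ⧸ K) n

/-- The statement of Q1 for one group `G`. -/
def QuestionFor.{v, u} (G : Type u) [Group G] [TopologicalSpace G] : Prop :=
  ∀ K : Subgroup G, IsCompact (K : Set G) → IsLarge K →
    ∀ (S : Type v) [TopologicalSpace S] [T35Space S] [MulAction K S] [ContinuousSMul K S],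
      IsNhdEquivRetract K (range (Twisted.incl K S))

section coset_part

variable {G : Type*} [Group G] [TopologicalSpace G] [IsTopologicalGroup G]

/-- the natural map of coset spaces -/
def cosetMap (K H : Subgroup G) : H ⧸ K.subgroupOf H → G ⧸ K :=
  Quotient.lift (fun h : H => (QuotientGroup.mk (h : G) : G ⧸ K)) (by
    intro a b hab
    have h1 : a⁻¹ * b ∈ K.subgroupOf H := QuotientGroup.leftRel_apply.1 hab
    exact QuotientGroup.eq.2 h1)

theorem cosetMap_mk (K H : Subgroup G) (h : H) :
    cosetMap K H (QuotientGroup.mk h) = QuotientGroup.mk (h : G) := rfl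

theorem isOpenEmbedding_cosetMap (K H : Subgroup G) (hH : IsOpen (H : Set G)) :
    IsOpenEmbedding (cosetMap K H) := by
  refine IsOpenEmbedding.of_continuous_injective_isOpenMap ?_ ?_ ?_
  · exact Continuous.quotient_lift (QuotientGroup.continuous_mk.comp continuous_subtype_val) _
  · intro a b hab
    obtain ⟨a, rfl⟩ := QuotientGroup.mk_surjective a
    obtain ⟨b, rfl⟩ := QuotientGroup.mk_surjective b
    rw [cosetMap_mk, cosetMap_mk, QuotientGroup.eq] at hab
    exact QuotientGroup.eq.2 hab
  · intro V hV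
    have : cosetMap K H '' V = (QuotientGroup.mk : G → G ⧸ K) ''
        (Subtype.val '' ((QuotientGroup.mk : H → H ⧸ K.subgroupOf H) ⁻¹' V)) := by
      ext x
      constructor
      · rintro ⟨y, hy, rfl⟩
        obtain ⟨h, rfl⟩ := QuotientGroup.mk_surjective y
        exact ⟨h, ⟨h, hy, rfl⟩, rfl⟩
      · rintro ⟨_, ⟨h, hy, rfl⟩, rfl⟩
        exact ⟨QuotientGroup.mk h, hy, rfl⟩
    rw [this]
    refine QuotientGroup.isOpenMap_coe _ (hH.isOpenMap_subtype_val _ ?_)
    exact hV.preimage QuotientGroup.continuous_mk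

theorem isClosed_range_cosetMap (K H : Subgroup G) (hH : IsOpen (H : Set G)) (hKH : K ≤ H) :
    IsClosed (range (cosetMap K H)) := by
  have hpre : (QuotientGroup.mk : G → G ⧸ K) ⁻¹' (range (cosetMap K H)) = (H : Set G) := by
    ext g
    constructor
    · rintro ⟨y, hy⟩
      obtain ⟨h, rfl⟩ := QuotientGroup.mk_surjective y
      rw [cosetMap_mk, QuotientGroup.eq] at hy
      have h1 := H.mul_mem h.2 (hKH hy)
      simpa using h1
    · intro hg
      exact ⟨QuotientGroup.mk ⟨g, hg⟩, rfl⟩
  rw [← isQuotientMap_quotient_mk'.isClosed_preimage]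
  exact (congrArg IsClosed hpre).mpr (H.isClosed_of_isOpen hH)

theorem IsLarge.subgroupOf {K : Subgroup G} (hK : IsLarge K) (H : Subgroup G)
    (hH : IsOpen (H : Set G)) (hKH : K ≤ H) : IsLarge (K.subgroupOf H) := by
  obtain ⟨hlc, n, hn⟩ := hK
  have hemb := isOpenEmbedding_cosetMap K H hH
  exact ⟨hemb.locallyConnectedSpace, n, hn.of_clopen _ hemb (isClosed_range_cosetMap K H hH hKH)⟩

end coset_part

section twisted_part

variable {G : Type*} [Group G] [TopologicalSpace G] [IsTopologicalGroup G]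

theorem Twisted.continuous_mk (K : Subgroup G) (S : Type*) [TopologicalSpace S] [MulAction K S] :
    Continuous (Twisted.mk K S) := continuous_quotient_mk'

theorem Twisted.mk_surjective (K : Subgroup G) (S : Type*) [MulAction K S] :
    Function.Surjective (Twisted.mk K S) := Quotient.mk_surjective

theorem Twisted.mk_eq {K : Subgroup G} {S : Type*} [MulAction K S] {p q : G × S} :
    Twisted.mk K S p = Twisted.mk K S q ↔ ∃ k : K, q = (p.1 * (k : G)⁻¹, k • p.2) := Quotient.eq

theorem Twisted.isOpenMap_mk (K : Subgroup G) (S : Type*) [TopologicalSpace S] [MulAction K S]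
    [ContinuousSMul K S] : IsOpenMap (Twisted.mk K S) := by
  intro V hV
  have hpre : Twisted.mk K S ⁻¹' (Twisted.mk K S '' V) =
      ⋃ k : K, (fun p : G × S => (p.1 * (k : G)⁻¹, k • p.2)) ⁻¹' V := by
    ext p
    simp only [mem_preimage, mem_image, mem_iUnion]
    constructor
    · rintro ⟨q, hq, h⟩
      obtain ⟨k, hk⟩ := Twisted.mk_eq.1 h.symm
      exact ⟨k, hk ▸ hq⟩
    · rintro ⟨k, hk⟩
      exact ⟨_, hk, (Twisted.mk_eq.2 ⟨k, rfl⟩).symm⟩
  have hop : IsOpen (Twisted.mk K S ⁻¹' (Twisted.mk K S '' V)) := by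
    rw [hpre]
    refine isOpen_iUnion fun k => hV.preimage ?_
    exact (continuous_fst.mul continuous_const).prodMk (continuous_snd.const_smul k)
  exact isQuotientMap_quotient_mk'.isOpen_preimage.1 hop

/-- the natural map of twisted products -/
def twMap (K H : Subgroup G) (S : Type*) [MulAction K S] [MulAction (K.subgroupOf H) S]
    (hact : ∀ (k : K.subgroupOf H) (s : S), k • s = (⟨((k : H) : G), k.2⟩ : K) • s) :
    Twisted (K.subgroupOf H) S → Twisted K S :=
  Quotient.map (fun p : H × S => ((p.1 : G), p.2)) (by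
    rintro p q ⟨k, rfl⟩
    exact ⟨⟨((k : H) : G), k.2⟩, by rw [hact]; rfl⟩)

theorem twMap_mk (K H : Subgroup G) (S : Type*) [MulAction K S] [MulAction (K.subgroupOf H) S]
    (hact : ∀ (k : K.subgroupOf H) (s : S), k • s = (⟨((k : H) : G), k.2⟩ : K) • s)
    (h : H) (s : S) :
    twMap K H S hact (Twisted.mk _ S (h, s)) = Twisted.mk K S ((h : G), s) := rfl

theorem twMap_smul (K H : Subgroup G) (S : Type*) [MulAction K S] [MulAction (K.subgroupOf H) S]
    (hact : ∀ (k : K.subgroupOf H) (s : S), k • s = (⟨((k : H) : G), k.2⟩ : K) • s)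
    (k : K.subgroupOf H) (x : Twisted (K.subgroupOf H) S) :
    twMap K H S hact (k • x) = (⟨((k : H) : G), k.2⟩ : K) • twMap K H S hact x := by
  obtain ⟨⟨h, s⟩, rfl⟩ := Twisted.mk_surjective _ _ x
  rfl

theorem isOpenEmbedding_twMap (K H : Subgroup G) (hH : IsOpen (H : Set G)) (hKH : K ≤ H)
    (S : Type*) [TopologicalSpace S]
    [MulAction K S] [ContinuousSMul K S] [MulAction (K.subgroupOf H) S]
    (hact : ∀ (k : K.subgroupOf H) (s : S), k • s = (⟨((k : H) : G), k.2⟩ : K) • s) :
    IsOpenEmbedding (twMap K H S hact) := by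
  refine IsOpenEmbedding.of_continuous_injective_isOpenMap ?_ ?_ ?_
  · refine Continuous.quotient_map' ?_ _
    exact (continuous_subtype_val.comp continuous_fst).prodMk continuous_snd
  · intro a b hab
    obtain ⟨⟨h, s⟩, rfl⟩ := Twisted.mk_surjective _ _ a
    obtain ⟨⟨h', s'⟩, rfl⟩ := Twisted.mk_surjective _ _ b
    rw [twMap_mk, twMap_mk] at hab
    obtain ⟨k, hk⟩ := Twisted.mk_eq.1 hab
    refine Twisted.mk_eq.2 ⟨⟨⟨k, hKH k.2⟩, k.2⟩, ?_⟩
    rw [Prod.ext_iff] at hk ⊢
    refine ⟨Subtype.ext hk.1, ?_⟩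
    rw [hact]
    exact hk.2
  · intro V hV
    have : twMap K H S hact '' V = Twisted.mk K S ''
        ((fun p : H × S => ((p.1 : G), p.2)) '' (Twisted.mk (K.subgroupOf H) S ⁻¹' V)) := by
      ext x
      constructor
      · rintro ⟨y, hy, rfl⟩
        obtain ⟨⟨h, s⟩, rfl⟩ := Twisted.mk_surjective _ _ y
        exact ⟨_, ⟨(h, s), hy, rfl⟩, rfl⟩
      · rintro ⟨_, ⟨⟨h, s⟩, hy, rfl⟩, rfl⟩
        exact ⟨Twisted.mk _ S (h, s), hy, rfl⟩
    rw [this]
    refine Twisted.isOpenMap_mk K S _ ?_
    have h1 : IsOpenMap (fun p : H × S => ((p.1 : G), p.2)) :=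
      hH.isOpenMap_subtype_val.prodMap IsOpenMap.id
    exact h1 _ (hV.preimage (Twisted.continuous_mk _ _))

theorem transfer (K H : Subgroup G) (hH : IsOpen (H : Set G)) (hKH : K ≤ H)
    (S : Type*) [TopologicalSpace S]
    [MulAction K S] [ContinuousSMul K S] [MulAction (K.subgroupOf H) S]
    (hact : ∀ (k : K.subgroupOf H) (s : S), k • s = (⟨((k : H) : G), k.2⟩ : K) • s)
    (h : IsNhdEquivRetract (K.subgroupOf H) (range (Twisted.incl (K.subgroupOf H) S))) :
    IsNhdEquivRetract K (range (Twisted.incl K S)) := by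
  classical
  obtain ⟨U, hU, hAU, hKU, r, hr, hrA, hrK, hrid⟩ := h
  set F := twMap K H S hact with hF
  have hemb : IsOpenEmbedding F := isOpenEmbedding_twMap K H hH hKH S hact
  have hincl : ∀ s, F (Twisted.incl _ S s) = Twisted.incl K S s := fun s => rfl
  let r' : Twisted K S → Twisted K S := fun x => if h : ∃ y, F y = x then F (r h.choose) else x
  have hr' : ∀ y, r' (F y) = F (r y) := by
    intro y
    have hex : ∃ z, F z = F y := ⟨y, rfl⟩
    have h1 : hex.choose = y := hemb.injective hex.choose_spec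
    change (if h : ∃ z, F z = F y then F (r h.choose) else F y) = F (r y)
    rw [dif_pos hex, h1]
  have hk : ∀ (k : K) (x : Twisted (K.subgroupOf H) S),
      k • F x = F ((⟨⟨k, hKH k.2⟩, k.2⟩ : K.subgroupOf H) • x) := by
    intro k x
    rw [hF, twMap_smul]
  refine ⟨F '' U, hemb.isOpenMap _ hU, ?_, ?_, r', ?_, ?_, ?_, ?_⟩
  · rintro _ ⟨s, rfl⟩
    exact ⟨_, hAU ⟨s, rfl⟩, hincl s⟩
  · rintro k _ ⟨x, hx, rfl⟩
    rw [hk]
    exact ⟨_, hKU _ x hx, rfl⟩
  · rintro _ ⟨x, hx, rfl⟩
    apply ContinuousAt.continuousWithinAt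
    rw [ContinuousAt, hr', ← hemb.map_nhds_eq, Filter.tendsto_map'_iff]
    have h1 : r' ∘ F = F ∘ r := by
      ext1 y
      exact hr' y
    rw [h1]
    exact (hemb.continuous.continuousAt.comp (hr.continuousAt (hU.mem_nhds hx)))
  · rintro _ ⟨x, hx, rfl⟩
    rw [hr']
    obtain ⟨s, hs⟩ := hrA hx
    exact ⟨s, by rw [← hs]; rfl⟩
  · rintro k _ ⟨x, hx, rfl⟩
    rw [hk, hr', hr', hk, hrK _ x hx]
  · rintro _ ⟨s, rfl⟩
    rw [← hincl, hr', hrid _ ⟨s, rfl⟩]

end twisted_part

section converse

variable {G : Type*} [Group G] [TopologicalSpace G] [IsTopologicalGroup G]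

/-- the translate of the coset map by `g` -/
def trMap (K H : Subgroup G) (g : G) : H ⧸ K.subgroupOf H → G ⧸ K := fun y => g • cosetMap K H y

theorem isOpenEmbedding_trMap (K H : Subgroup G) (hH : IsOpen (H : Set G)) (g : G) :
    IsOpenEmbedding (trMap K H g) :=
  (Homeomorph.smul g).isOpenEmbedding.comp (isOpenEmbedding_cosetMap K H hH)

theorem mk_mem_range_trMap (K H : Subgroup G) (hKH : K ≤ H) (g x : G) :
    (QuotientGroup.mk x : G ⧸ K) ∈ range (trMap K H g) ↔ g⁻¹ * x ∈ H := by
  constructor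
  · rintro ⟨y, hy⟩
    obtain ⟨h, rfl⟩ := QuotientGroup.mk_surjective y
    have h1 : (QuotientGroup.mk (g * h) : G ⧸ K) = QuotientGroup.mk x := hy
    rw [QuotientGroup.eq] at h1
    have h2 : g⁻¹ * x = (h : G) * ((g * h)⁻¹ * x) := by group
    rw [h2]
    exact H.mul_mem h.2 (hKH h1)
  · intro h
    refine ⟨QuotientGroup.mk ⟨g⁻¹ * x, h⟩, ?_⟩
    change (QuotientGroup.mk (g * (g⁻¹ * x)) : G ⧸ K) = QuotientGroup.mk x
    rw [mul_inv_cancel_left]

theorem IsLarge.of_subgroupOf {K : Subgroup G} (H : Subgroup G)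
    (hH : IsOpen (H : Set G)) (hKH : K ≤ H) (hK : IsLarge (K.subgroupOf H)) : IsLarge K := by
  classical
  obtain ⟨hlc, n, hn⟩ := hK
  have hemb := isOpenEmbedding_trMap K H hH
  refine ⟨?_, n, ?_⟩
  · rw [locallyConnectedSpace_iff_subsets_isOpen_isConnected]
    intro x U hU
    obtain ⟨g, rfl⟩ := QuotientGroup.mk_surjective x
    have hg : trMap K H g (QuotientGroup.mk 1) = QuotientGroup.mk g := by
      change (QuotientGroup.mk (g * ((1 : H) : G)) : G ⧸ K) = _
      simp
    have h1 : trMap K H g ⁻¹' U ∈ 𝓝 (QuotientGroup.mk 1 : H ⧸ K.subgroupOf H) :=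
      (hemb g).continuous.continuousAt.preimage_mem_nhds (by rw [hg]; exact hU)
    obtain ⟨V, hVU, hVo, hV1, hVc⟩ :=
      (locallyConnectedSpace_iff_subsets_isOpen_isConnected.1 hlc) _ _ h1
    exact ⟨trMap K H g '' V, image_subset_iff.2 hVU, (hemb g).isOpenMap _ hVo, ⟨_, hV1, hg⟩,
      hVc.image _ (hemb g).continuous.continuousOn⟩
  · intro m U hU hcov
    -- representatives of the cosets of `H`
    let c : G → G := fun x => Quotient.out (QuotientGroup.mk x : G ⧸ H)
    have hc : ∀ x : G, (c x)⁻¹ * x ∈ H := fun x =>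
      QuotientGroup.eq.1 (Quotient.out_eq (QuotientGroup.mk x : G ⧸ H))
    have key : ∀ g : G, ∃ V : Fin m → Set (H ⧸ K.subgroupOf H), (∀ i, IsOpen (V i)) ∧
        (∀ i, V i ⊆ trMap K H g ⁻¹' U i) ∧ (∀ x, ∃ i, x ∈ V i) ∧
        ∀ x, {i | x ∈ V i}.ncard ≤ n + 1 := fun g =>
      hn m (fun i => trMap K H g ⁻¹' U i) (fun i => (hU i).preimage (hemb g).continuous)
        (fun y => hcov _)
    choose V hVo hVU hVc hVn using key
    have hmem : ∀ (q q' : G ⧸ H) (y y' : H ⧸ K.subgroupOf H),
        trMap K H q.out y = trMap K H q'.out y' → q = q' ∧ y = y' := by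
      intro q q' y y' h
      obtain ⟨a, rfl⟩ := QuotientGroup.mk_surjective y
      have h1 : (QuotientGroup.mk (q.out * a) : G ⧸ K) = trMap K H q'.out y' := h
      have h2 := (mk_mem_range_trMap K H hKH q'.out (q.out * a)).1 ⟨y', h1.symm⟩
      have h3 : q'.out⁻¹ * q.out ∈ H := by
        have := H.mul_mem h2 (H.inv_mem a.2)
        simpa [mul_assoc] using this
      have h4 : q' = q := by
        rw [← Quotient.out_eq q', ← Quotient.out_eq q]
        exact QuotientGroup.eq.2 h3
      subst h4
      exact ⟨rfl, (hemb _).injective h⟩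
    refine ⟨fun i => ⋃ q : G ⧸ H, trMap K H q.out '' V q.out i, ?_, ?_, ?_, ?_⟩
    · exact fun i => isOpen_iUnion fun q => (hemb _).isOpenMap _ (hVo _ i)
    · intro i x hx
      obtain ⟨q, y, hy, rfl⟩ := mem_iUnion.1 hx
      exact hVU _ i hy
    · intro x
      obtain ⟨g, rfl⟩ := QuotientGroup.mk_surjective x
      obtain ⟨y, hy⟩ := (mk_mem_range_trMap K H hKH (c g) g).2 (hc g)
      obtain ⟨i, hi⟩ := hVc (c g) y
      exact ⟨i, mem_iUnion.2 ⟨QuotientGroup.mk g, y, hi, hy⟩⟩
    · intro x
      obtain ⟨g, rfl⟩ := QuotientGroup.mk_surjective x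
      obtain ⟨y, hy⟩ := (mk_mem_range_trMap K H hKH (c g) g).2 (hc g)
      have : {i | (QuotientGroup.mk g : G ⧸ K) ∈ ⋃ q : G ⧸ H, trMap K H q.out '' V q.out i} =
          {i | y ∈ V (c g) i} := by
        ext i
        constructor
        · intro hi
          obtain ⟨q, y', hy', h⟩ := mem_iUnion.1 hi
          obtain ⟨h1, h2⟩ := hmem q (QuotientGroup.mk g) y' y (h.trans hy.symm)
          subst h1 h2
          exact hy'
        · intro hi
          exact mem_iUnion.2 ⟨QuotientGroup.mk g, y, hi, hy⟩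
      rw [this]
      exact hVn (c g) y

theorem transfer_back (K H : Subgroup G) (hH : IsOpen (H : Set G)) (hKH : K ≤ H)
    (S : Type*) [TopologicalSpace S]
    [MulAction K S] [ContinuousSMul K S] [MulAction (K.subgroupOf H) S]
    (hact : ∀ (k : K.subgroupOf H) (s : S), k • s = (⟨((k : H) : G), k.2⟩ : K) • s)
    (h : IsNhdEquivRetract K (range (Twisted.incl K S))) :
    IsNhdEquivRetract (K.subgroupOf H) (range (Twisted.incl (K.subgroupOf H) S)) := by
  classical
  obtain ⟨U, hU, hAU, hKU, r, hr, hrA, hrK, hrid⟩ := h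
  set F := twMap K H S hact with hF
  have hemb : IsOpenEmbedding F := isOpenEmbedding_twMap K H hH hKH S hact
  have hincl : ∀ s, F (Twisted.incl _ S s) = Twisted.incl K S s := fun s => rfl
  let r' : Twisted (K.subgroupOf H) S → Twisted (K.subgroupOf H) S :=
    fun x => if h : ∃ y, F y = r (F x) then h.choose else x
  have hr' : ∀ x ∈ F ⁻¹' U, F (r' x) = r (F x) := by
    intro x hx
    have hex : ∃ z, F z = r (F x) := by
      obtain ⟨s, hs⟩ := hrA hx
      exact ⟨Twisted.incl _ S s, by rw [hincl]; exact hs⟩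
    change F (if h : ∃ y, F y = r (F x) then h.choose else x) = r (F x)
    rw [dif_pos hex]
    exact hex.choose_spec
  have hk : ∀ (k : K.subgroupOf H) (x : Twisted (K.subgroupOf H) S),
      F (k • x) = (⟨((k : H) : G), k.2⟩ : K) • F x := by
    intro k x
    rw [hF, twMap_smul]
  have hinv : ∀ (k : K.subgroupOf H), ∀ x ∈ F ⁻¹' U, k • x ∈ F ⁻¹' U := by
    intro k x hx
    rw [mem_preimage, hk]
    exact hKU _ _ hx
  refine ⟨F ⁻¹' U, hU.preimage hemb.continuous, ?_, hinv, r', ?_, ?_, ?_, ?_⟩
  · rintro _ ⟨s, rfl⟩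
    exact hAU ⟨s, rfl⟩
  · rw [hemb.isInducing.continuousOn_iff]
    have h1 : ContinuousOn (r ∘ F) (F ⁻¹' U) :=
      hr.comp hemb.continuous.continuousOn (mapsTo_preimage F U)
    exact h1.congr fun x hx => hr' x hx
  · intro x hx
    obtain ⟨s, hs⟩ := hrA hx
    refine ⟨s, hemb.injective ?_⟩
    rw [hincl, hs, hr' x hx]
  · intro k x hx
    apply hemb.injective
    rw [hr' _ (hinv k x hx), hk, hk, hr' x hx, hrK _ _ hx]
  · rintro _ ⟨s, rfl⟩
    apply hemb.injective
    have hs : Twisted.incl (K.subgroupOf H) S s ∈ F ⁻¹' U := hAU ⟨s, rfl⟩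
    rw [hr' _ hs, hincl, hrid _ ⟨s, rfl⟩]

end converse

/-- **Reduction of Q1 to almost connected groups.**  For every locally compact Hausdorff group `G`,
the statement of Q1 holds for `G` if and only if it holds for every open almost connected subgroup
of `G`. -/
theorem reduction.{v, u} : ∀ (G : Type u) [Group G] [TopologicalSpace G] [IsTopologicalGroup G]
    [LocallyCompactSpace G] [T2Space G],
    QuestionFor.{v} G ↔
      ∀ H : Subgroup G, IsOpen (H : Set G) → AlmostConnected H → QuestionFor.{v} H := by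
  intro G _ _ _ _ _
  constructor
  · intro hyp H hHo _ K' hK' hL'
    obtain ⟨K, hKH, rfl⟩ : ∃ K : Subgroup G, K ≤ H ∧ K' = K.subgroupOf H :=
      ⟨K'.map H.subtype, Subgroup.map_subtype_le K', by
        ext x
        rw [Subgroup.mem_subgroupOf]
        constructor
        · intro hx; exact ⟨x, hx, rfl⟩
        · rintro ⟨y, hy, hyx⟩
          have : y = x := Subtype.ext hyx
          exact this ▸ hy⟩
    intro S _ _ _ _
    let e : K →* K.subgroupOf H :=
      { toFun := fun k => ⟨⟨k, hKH k.2⟩, k.2⟩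
        map_one' := rfl
        map_mul' := fun _ _ => rfl }
    have he : Continuous e :=
      Continuous.subtype_mk (Continuous.subtype_mk continuous_subtype_val _) _
    let act : MulAction K S := MulAction.compHom S e
    have hact : ∀ (k : K.subgroupOf H) (s : S), k • s = (⟨((k : H) : G), k.2⟩ : K) • s :=
      fun _ _ => rfl
    have hcont : ContinuousSMul K S := by
      refine ⟨?_⟩
      have : Continuous (fun p : K × S => e p.1 • p.2) :=
        (he.comp continuous_fst).smul continuous_snd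
      exact this
    have hKc : IsCompact (K : Set G) := by
      have h1 := hK'.image continuous_subtype_val
      convert h1
      ext x
      constructor
      · intro hx; exact ⟨⟨x, hKH hx⟩, hx, rfl⟩
      · rintro ⟨y, hy, rfl⟩; exact hy
    exact transfer_back K H hHo hKH S hact (hyp K hKc (hL'.of_subgroupOf H hHo hKH) S)
  · intro hyp K hK hL S _ _ _ _
    obtain ⟨H, hKH, hHo, hHac⟩ := exists_open_almostConnected K hK
    let e : K.subgroupOf H →* K :=
      { toFun := fun k => ⟨((k : H) : G), k.2⟩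
        map_one' := rfl
        map_mul' := fun _ _ => rfl }
    have he : Continuous e :=
      Continuous.subtype_mk (continuous_subtype_val.comp continuous_subtype_val) _
    let act : MulAction (K.subgroupOf H) S := MulAction.compHom S e
    have hact : ∀ (k : K.subgroupOf H) (s : S), k • s = (⟨((k : H) : G), k.2⟩ : K) • s :=
      fun _ _ => rfl
    have hcont : ContinuousSMul (K.subgroupOf H) S := by
      refine ⟨?_⟩
      have : Continuous (fun p : K.subgroupOf H × S => e p.1 • p.2) :=
        (he.comp continuous_fst).smul continuous_snd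
      exact this
    have hKc : IsCompact ((K.subgroupOf H : Subgroup H) : Set H) :=
      (H.isClosed_of_isOpen hHo).isClosedEmbedding_subtypeVal.isCompact_preimage hK
    exact transfer K H hHo hKH S hact (hyp H hHo hHac (K.subgroupOf H) hKc
      (hL.subgroupOf H hHo hKH) S)

end Pool.Agent.H95.GY
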