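import Pool.Agent.H95.GY.Defs

/-!
# MP_c39b0e_gt: targets of the modules (board gy_modules)
-/

set_option autoImplicit false

open Filter Topology MeasureTheory Set
open scoped Pointwise

universe u v

namespace Pool.Agent.H95.GY

/-! ## Part A: compact groups, ultralimits, trapping of subgroups -/

/-- (MET) compact groups have small normal subgroups with second countable quotient -/
def T_MET : Prop :=
  ∀ (E : Type u) [Group E] [TopologicalSpace E] [IsTopologicalGroup E] [CompactSpace E]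
    [T2Space E], ∀ U ∈ 𝓝 (1 : E), ∃ N : Subgroup E, N.Normal ∧ IsClosed (N : Set E) ∧
      (N : Set E) ⊆ U ∧ SecondCountableTopology (E ⧸ N)

/-- (PWK) a compact group has orthogonal representations with small kernel -/
def T_PWK : Prop :=
  ∀ (E : Type u) [Group E] [TopologicalSpace E] [IsTopologicalGroup E] [CompactSpace E]
    [T2Space E], ∀ U ∈ 𝓝 (1 : E), ∃ (m : ℕ) (σ : E →* Matrix (Fin m) (Fin m) ℝ), Continuous σ ∧
      (∀ g, (σ g).transpose * σ g = 1) ∧ ∀ g, σ g = 1 → g ∈ U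

/-- (NOR) -/
def T_NOR : Prop :=
  ∀ (G : Type u) [Group G] [TopologicalSpace G] [IsTopologicalGroup G] [T2Space G]
    (E : Subgroup G), IsCompact (E : Set G) → ∀ U ∈ 𝓝 (1 : G),
    ∃ N ≤ E, IsCompact (N : Set G) ∧ (N : Set G) ⊆ U ∧
      ∃ O : Set G, IsOpen O ∧ (N : Set G) ⊆ O ∧ ∀ H ≤ E, (H : Set G) ⊆ O → H ≤ N

/-- (EL) exit lemma -/
def T_EL : Prop :=
  ∀ (G : Type u) [Group G] [TopologicalSpace G] [IsTopologicalGroup G] [LocallyCompactSpace G]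
    [T2Space G] (A W : Set G), IsCompact A → W ∈ 𝓝 (1 : G) → ∀ T : ℝ, 0 < T →
    ∃ V ∈ 𝓝 (1 : G), ∃ L : ℝ, 0 < L ∧ ∀ (S : Set G) (r : G → ℝ),
      (∀ g ∈ S, g⁻¹ ∈ S ∧ 0 < r g ∧ r g⁻¹ = r g) → Bw S r 1 ⊆ A →
      (∀ g ∈ S, ∃ k : ℕ, L ≤ k * r g ∧ ∀ j < k, g ^ j ∈ V) → Bw S r T ⊆ Bw S r 1 * W

/-- (UL) ultralimits of almost subgroups -/
def T_UL : Prop :=
  ∀ (G : Type u) [Group G] [TopologicalSpace G] [IsTopologicalGroup G] [LocallyCompactSpace G]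
    [T2Space G] (ι : Type v) (ω : Ultrafilter ι) (A : Set G) (S : ι → Set G), IsCompact A →
    (∀ᶠ i in ω, S i ⊆ A) → (∀ i, (1 : G) ∈ S i) → (∀ i, ∀ g ∈ S i, g⁻¹ ∈ S i) →
    (∀ W ∈ 𝓝 (1 : G), ∀ᶠ i in ω, S i * S i ⊆ S i * W) →
    ∃ E : Subgroup G, IsCompact (E : Set G) ∧ (E : Set G) ⊆ A ∧
      (∀ x, x ∈ E ↔ ∀ W ∈ 𝓝 x, ∀ᶠ i in ω, (W ∩ S i).Nonempty) ∧
      ∀ y : ι → G, (∀ W ∈ 𝓝 (1 : G), ∀ᶠ i in ω, y i ∈ S i * W) → ∃ x ∈ E, Tendsto y ω (𝓝 x)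

/-- (TR) trapping -/
def T_TR : Prop :=
  ∀ (G : Type u) [Group G] [TopologicalSpace G] [IsTopologicalGroup G] [LocallyCompactSpace G]
    [T2Space G], ∀ U ∈ 𝓝 (1 : G), ∃ V ∈ 𝓝 (1 : G), (Subgroup.closure (Pw V) : Set G) ⊆ U

/-- (GYS) small compact subgroups which trap -/
def T_GYS : Prop :=
  ∀ (G : Type u) [Group G] [TopologicalSpace G] [IsTopologicalGroup G] [LocallyCompactSpace G]
    [T2Space G], ∀ U ∈ 𝓝 (1 : G), ∃ N : Subgroup G, IsCompact (N : Set G) ∧ (N : Set G) ⊆ U ∧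
      IsTrap N

/-- (FAM) weak form of the theorem of Gleason and Yamabe -/
def T_FAM : Prop :=
  ∀ (G : Type u) [Group G] [TopologicalSpace G] [IsTopologicalGroup G] [LocallyCompactSpace G]
    [T2Space G], AlmostConnected G → SmallGood G

/-- (QNS) -/
def T_QNS : Prop :=
  ∀ (G : Type u) [Group G] [TopologicalSpace G] [IsTopologicalGroup G] [LocallyCompactSpace G]
    [T2Space G] (N : Subgroup G) [N.Normal], IsCompact (N : Set G) → IsTrap N →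
    T2Space (G ⧸ N) ∧ LocallyCompactSpace (G ⧸ N) ∧ NSS (G ⧸ N)

/-! ## Part B: groups without small subgroups -/

/-- a compact symmetric neighbourhood of `1` without nontrivial subgroups -/
structure Nb {Q : Type u} [Group Q] [TopologicalSpace Q] (U : Set Q) : Prop where
  compact : IsCompact U
  nhd : U ∈ 𝓝 (1 : Q)
  symm : ∀ g ∈ U, g⁻¹ ∈ U
  nss : ∀ H : Subgroup Q, (H : Set Q) ⊆ U → H = ⊥

/-- (N1) -/
def T_N1 : Prop :=
  ∀ (Q : Type u) [Group Q] [TopologicalSpace Q] [IsTopologicalGroup Q] [T2Space Q] (U : Set Q),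
    Nb U → ∀ V ∈ 𝓝 (1 : Q), ∃ ε : ℝ, 0 < ε ∧ ∀ (g : Q) (n : ℕ), (∀ i ≤ n, g ^ i ∈ U) →
      ∀ i : ℕ, (i : ℝ) ≤ ε * n → g ^ i ∈ V

/-- (N2) the lemma of Gleason -/
def T_N2 : Prop :=
  ∀ (Q : Type u) [Group Q] [TopologicalSpace Q] [IsTopologicalGroup Q] [LocallyCompactSpace Q]
    [T2Space Q] (U : Set Q), Nb U → ∃ c : ℝ, 0 < c ∧ ∀ l : List Q, (l.map (esc U)).sum ≤ c →
      l.prod ∈ U

/-- (NM) the norm -/
def T_NM : Prop :=
  ∀ (Q : Type u) [Group Q] [TopologicalSpace Q] [IsTopologicalGroup Q] [LocallyCompactSpace Q]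
    [T2Space Q], NSS Q → ∃ (ν : Q → ℝ) (r C : ℝ), PreG ν r C

/-- (BMP) the bump function and the commutator estimate -/
def T_BMP : Prop :=
  ∀ (Q : Type u) [Group Q] [TopologicalSpace Q] [IsTopologicalGroup Q] [LocallyCompactSpace Q]
    [T2Space Q] (ν : Q → ℝ) (r C : ℝ), PreG ν r C →
    ∃ (φ : Q → ℝ) (r' C' : ℝ), GD ν φ r' C'

/-- (FF) comparison of `(g h)^n` and `g^n h^n` -/
def T_FF : Prop :=
  ∀ (Q : Type u) [Group Q] [TopologicalSpace Q] [IsTopologicalGroup Q] [T2Space Q]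
    (ν φ : Q → ℝ) (r C : ℝ), GD ν φ r C →
    ∃ s : ℝ, 0 < s ∧ ∃ C' : ℝ, 0 < C' ∧ ∀ (g h : Q) (n : ℕ), n * ν g ≤ s → n * ν h ≤ s →
      ν ((g * h) ^ n * (g ^ n * h ^ n)⁻¹) ≤ C' * n ^ 2 * ν g * ν h

/-- (UP) comparison of `g^n` and `h^n` -/
def T_UP : Prop :=
  ∀ (Q : Type u) [Group Q] [TopologicalSpace Q] [IsTopologicalGroup Q] [T2Space Q]
    (ν : Q → ℝ) (r C : ℝ), PreG ν r C → ∀ (g h : Q) (n : ℕ), (∀ j < n, ν (g ^ j) ≤ r) →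
      ν (g ^ n * (h ^ n)⁻¹) ≤ C * n * ν (g * h⁻¹)

/-- (RHO) one-parameter groups are Lipschitz -/
def T_RHO : Prop :=
  ∀ (Q : Type u) [Group Q] [TopologicalSpace Q] [IsTopologicalGroup Q] [T2Space Q]
    (ν : Q → ℝ) (r C : ℝ), PreG ν r C → ∀ X : ℝ → Q, IsOPS X →
    ∃ ρ : ℝ, 0 ≤ ρ ∧ ∀ t, ν (X t) ≤ ρ * |t|

/-- (DD) derivatives -/
def T_DD : Prop :=
  ∀ (Q : Type u) [Group Q] [TopologicalSpace Q] [IsTopologicalGroup Q] [T2Space Q]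
    (ν φ : Q → ℝ) (r C : ℝ), GD ν φ r C → ∃ C' : ℝ, 0 < C' ∧ ∀ (X : ℝ → Q) (ρ : ℝ), IsOPS X →
      0 ≤ ρ → (∀ t, ν (X t) ≤ ρ * |t|) → ∃ D : Q → ℝ, (∀ x, |D x| ≤ C' * ρ) ∧
        ∀ (t : ℝ) (x : Q), ρ * |t| ≤ r →
          |φ (X t * x) - φ x - t * D x| ≤ C' * ρ ^ 2 * t ^ 2

/-- (HB) the norm of the derivative bounds the group -/
def T_HB : Prop :=
  ∀ (Q : Type u) [Group Q] [TopologicalSpace Q] [IsTopologicalGroup Q] [T2Space Q]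
    (ν φ : Q → ℝ) (r C : ℝ), GD ν φ r C → ∀ (X : ℝ → Q) (D : Q → ℝ) (M : ℝ), HasD φ X D →
      (∀ x, |D x| ≤ M) → ∀ t, ν (X t) ≤ C * M * |t|

/-- (HU) uniqueness -/
def T_HU : Prop :=
  ∀ (Q : Type u) [Group Q] [TopologicalSpace Q] [IsTopologicalGroup Q] [T2Space Q]
    (ν φ : Q → ℝ) (r C : ℝ), GD ν φ r C → ∀ (X Y : ℝ → Q) (D : Q → ℝ), HasD φ X D →
      HasD φ Y D → X = Y

/-- (ULM) ultralimits are one-parameter groups -/
def T_ULM : Prop :=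
  ∀ (Q : Type u) [Group Q] [TopologicalSpace Q] [IsTopologicalGroup Q] [T2Space Q]
    (ν φ : Q → ℝ) (r C : ℝ), GD ν φ r C → ∀ (ω : Ultrafilter ℕ) (g : ℕ → Q) (N : ℕ → ℕ)
    (R : ℝ), Tendsto N ω atTop → (∀ᶠ i in ω, N i * ν (g i) ≤ R) →
    ∃ (X : ℝ → Q) (D : Q → ℝ), HasD φ X D ∧
      (∀ t : ℝ, 0 ≤ t → Tendsto (fun i => g i ^ ⌊t * N i⌋₊) ω (𝓝 (X t))) ∧
      (∀ t, ν (X t) ≤ R * |t|) ∧
      ∀ ε : ℝ, 0 < ε → ∀ᶠ i in ω, ∀ x, |N i * (φ (g i * x) - φ x) - D x| ≤ ε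

/-- (HS) sums -/
def T_HS : Prop :=
  ∀ (Q : Type u) [Group Q] [TopologicalSpace Q] [IsTopologicalGroup Q] [T2Space Q]
    (ν φ : Q → ℝ) (r C : ℝ), GD ν φ r C → ∀ (X Y : ℝ → Q) (D D' : Q → ℝ), HasD φ X D →
      HasD φ Y D' → ∃ Z : ℝ → Q, HasD φ Z (fun x => D x + D' x) ∧
        ∀ t : ℝ, Tendsto (fun n : ℕ => (X (t / n) * Y (t / n)) ^ n) atTop (𝓝 (Z t))

/-- (HC) compactness -/
def T_HC : Prop :=
  ∀ (Q : Type u) [Group Q] [TopologicalSpace Q] [IsTopologicalGroup Q] [T2Space Q]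
    (ν φ : Q → ℝ) (r C : ℝ), GD ν φ r C → ∀ (X : ℕ → ℝ → Q) (D : ℕ → Q → ℝ) (M : ℝ),
    (∀ i, HasD φ (X i) (D i)) → (∀ i x, |D i x| ≤ M) → ∀ ω : Ultrafilter ℕ,
    ∃ (X₀ : ℝ → Q) (D₀ : Q → ℝ), HasD φ X₀ D₀ ∧ (∀ t, Tendsto (fun i => X i t) ω (𝓝 (X₀ t))) ∧
      ∀ ε : ℝ, 0 < ε → ∀ᶠ i in ω, ∀ x, |D i x - D₀ x| ≤ ε

/-- (HL) the exponential map is Lipschitz near zero -/
def T_HL : Prop :=
  ∀ (Q : Type u) [Group Q] [TopologicalSpace Q] [IsTopologicalGroup Q] [T2Space Q]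
    (ν φ : Q → ℝ) (r C : ℝ), GD ν φ r C → ∃ δ : ℝ, 0 < δ ∧ ∃ C' : ℝ, 0 < C' ∧
    ∀ (X Y : ℝ → Q) (D D' : Q → ℝ) (M : ℝ), HasD φ X D → HasD φ Y D' → (∀ x, |D x| ≤ δ) →
      (∀ x, |D' x| ≤ δ) → (∀ x, |D x - D' x| ≤ M) → ν (X 1 * (Y 1)⁻¹) ≤ C' * M

/-- (HP) the exponential of a sum near zero -/
def T_HP : Prop :=
  ∀ (Q : Type u) [Group Q] [TopologicalSpace Q] [IsTopologicalGroup Q] [T2Space Q]
    (ν φ : Q → ℝ) (r C : ℝ), GD ν φ r C → ∃ δ : ℝ, 0 < δ ∧ ∃ C' : ℝ, 0 < C' ∧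
    ∀ (X Y Z : ℝ → Q) (D D' : Q → ℝ) (M M' : ℝ), HasD φ X D → HasD φ Y D' →
      HasD φ Z (fun x => D x + D' x) → M ≤ δ → M' ≤ δ → (∀ x, |D x| ≤ M) →
      (∀ x, |D' x| ≤ M') → ν (Z 1 * (X 1 * Y 1)⁻¹) ≤ C' * M * M'

/-- (HW) lower bound of the exponential near zero -/
def T_HW : Prop :=
  ∀ (Q : Type u) [Group Q] [TopologicalSpace Q] [IsTopologicalGroup Q] [T2Space Q]
    (ν φ : Q → ℝ) (r C : ℝ), GD ν φ r C → ∃ δ : ℝ, 0 < δ ∧ ∃ C' : ℝ, 0 < C' ∧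
    ∀ (X : ℝ → Q) (D : Q → ℝ), HasD φ X D → (∀ x, |D x| ≤ δ) → ∀ x, |D x| ≤ C' * ν (X 1)

/-- (HA) approximate logarithm -/
def T_HA : Prop :=
  ∀ (Q : Type u) [Group Q] [TopologicalSpace Q] [IsTopologicalGroup Q] [T2Space Q]
    (ν φ : Q → ℝ) (r C : ℝ), GD ν φ r C → ∃ C' : ℝ, 0 < C' ∧ ∀ ε : ℝ, 0 < ε →
    ∃ s : ℝ, 0 < s ∧ ∀ k : Q, ν k ≤ s → ∃ (X : ℝ → Q) (D : Q → ℝ), HasD φ X D ∧
      (∀ x, |D x| ≤ C' * ν k) ∧ ν (k * (X 1)⁻¹) ≤ ε * ν k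

/-- (LS) the linear space of one-parameter groups -/
def T_LS : Prop :=
  ∀ (Q : Type u) [Group Q] [TopologicalSpace Q] [IsTopologicalGroup Q] [T2Space Q]
    (ν φ : Q → ℝ) (r C : ℝ), GD ν φ r C →
    ∃ (n : ℕ) (e : (Fin n → ℝ) → ℝ → Q) (d : (Fin n → ℝ) → Q → ℝ),
      (∀ v, HasD φ (e v) (d v)) ∧ (∀ X D, HasD φ X D → ∃ v, e v = X ∧ d v = D) ∧
      (∀ v w x, d (v + w) x = d v x + d w x) ∧ (∀ (c : ℝ) v x, d (c • v) x = c * d v x) ∧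
      ∃ a : ℝ, 0 < a ∧ (∀ v x, |d v x| ≤ a * ‖v‖) ∧
        ∀ (v : Fin n → ℝ) (M : ℝ), (∀ x, |d v x| ≤ M) → ‖v‖ ≤ a * M

/-- (CH) the chart -/
def T_CH : Prop :=
  ∀ (Q : Type u) [Group Q] [TopologicalSpace Q] [IsTopologicalGroup Q] [T2Space Q]
    (ν φ : Q → ℝ) (r C : ℝ), GD ν φ r C →
    ∃ (n : ℕ) (e : (Fin n → ℝ) → ℝ → Q), Chart Q n e

/-- (LIE) a locally compact group without small subgroups has a chart -/
def T_LIE : Prop :=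
  ∀ (Q : Type u) [Group Q] [TopologicalSpace Q] [IsTopologicalGroup Q] [LocallyCompactSpace Q]
    [T2Space Q], NSS Q → ∃ (n : ℕ) (e : (Fin n → ℝ) → ℝ → Q), Chart Q n e

/-! ## Part C: functoriality, equivariant sections, lifting -/

/-- (FUN) -/
def T_FUN : Prop :=
  ∀ (Q Q' : Type u) [Group Q] [TopologicalSpace Q] [IsTopologicalGroup Q] [T2Space Q]
    [Group Q'] [TopologicalSpace Q'] [IsTopologicalGroup Q'] [T2Space Q'] (n n' : ℕ)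
    (e : (Fin n → ℝ) → ℝ → Q) (e' : (Fin n' → ℝ) → ℝ → Q') (f : Q →* Q'), Chart Q n e →
    Chart Q' n' e' → Continuous f →
    ∃ p : (Fin n → ℝ) →ₗ[ℝ] (Fin n' → ℝ), (∀ v t, e' (p v) t = f (e v t)) ∧
      (Function.Surjective f → IsOpenMap f → Function.Surjective p)

/-- (AD) the adjoint representation -/
def T_AD : Prop :=
  ∀ (Q : Type u) [Group Q] [TopologicalSpace Q] [IsTopologicalGroup Q] [T2Space Q] (n : ℕ)
    (e : (Fin n → ℝ) → ℝ → Q), Chart Q n e →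
    ∀ (K : Type u) [Group K] [TopologicalSpace K] [IsTopologicalGroup K] [CompactSpace K]
      (c : K →* Q), Continuous c →
    ∃ ρ : K → (Fin n → ℝ) →ₗ[ℝ] (Fin n → ℝ), (∀ k v t, e (ρ k v) t = c k * e v t * (c k)⁻¹) ∧
      (∀ k l v, ρ (k * l) v = ρ k (ρ l v)) ∧ (∀ v, ρ 1 v = v) ∧ ∀ v, Continuous fun k => ρ k v

/-- (AVG) equivariant sections -/
def T_AVG : Prop :=
  ∀ (K : Type u) [Group K] [TopologicalSpace K] [IsTopologicalGroup K] [CompactSpace K]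
    [T2Space K] (m n : ℕ) (ρ : K → (Fin m → ℝ) →ₗ[ℝ] (Fin m → ℝ))
    (ρ' : K → (Fin n → ℝ) →ₗ[ℝ] (Fin n → ℝ)), (∀ k l v, ρ (k * l) v = ρ k (ρ l v)) →
    (∀ v, ρ 1 v = v) → (∀ v, Continuous fun k => ρ k v) →
    (∀ k l v, ρ' (k * l) v = ρ' k (ρ' l v)) → (∀ v, ρ' 1 v = v) →
    (∀ v, Continuous fun k => ρ' k v) → ∀ p : (Fin n → ℝ) →ₗ[ℝ] (Fin m → ℝ),
    Function.Surjective p → (∀ k v, p (ρ' k v) = ρ k (p v)) →
    ∃ s : (Fin m → ℝ) →ₗ[ℝ] (Fin n → ℝ), (∀ v, p (s v) = v) ∧ ∀ k v, s (ρ k v) = ρ' k (s v)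

/-- (AFF) inverse systems of finite-dimensional affine spaces -/
def T_AFF : Prop :=
  ∀ (I : Type u) [Preorder I] [Nonempty I] (E : I → Type) [∀ i, AddCommGroup (E i)]
    [∀ i, Module ℝ (E i)] [∀ i, FiniteDimensional ℝ (E i)]
    (f : ∀ i j : I, i ≤ j → E j →ₗ[ℝ] E i) (A : ∀ i, Set (E i)),
    (∀ i j : I, ∃ k, i ≤ k ∧ j ≤ k) →
    (∀ (i j k : I) (hij : i ≤ j) (hjk : j ≤ k) (x : E k),
      f i j hij (f j k hjk x) = f i k (hij.trans hjk) x) →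
    (∀ i, (A i).Nonempty) →
    (∀ i, ∀ x ∈ A i, ∀ y ∈ A i, ∀ t : ℝ, (1 - t) • x + t • y ∈ A i) →
    (∀ (i j : I) (hij : i ≤ j), ∀ x ∈ A j, f i j hij x ∈ A i) →
    ∃ x : ∀ i, E i, (∀ i, x i ∈ A i) ∧ ∀ (i j : I) (hij : i ≤ j), f i j hij (x j) = x i

/-- (GLU) gluing of cosets -/
def T_GLU : Prop :=
  ∀ (G : Type u) [Group G] [TopologicalSpace G] [IsTopologicalGroup G] [T2Space G],
    SmallGood G → ∀ N : Subgroup G, Good N → ∀ C : Subgroup G → Set G,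
    (∀ N', Good N' → N' ≤ N → ∃ g : G, C N' = {x | g⁻¹ * x ∈ N'}) →
    (∀ N' N'', Good N' → Good N'' → N'' ≤ N' → N' ≤ N → C N'' ⊆ C N') →
    ∃! g : G, ∀ N', Good N' → N' ≤ N → g ∈ C N'

/-- (CTS) continuity of maps to `G` -/
def T_CTS : Prop :=
  ∀ (G : Type u) [Group G] [TopologicalSpace G] [IsTopologicalGroup G] [T2Space G],
    SmallGood G → ∀ N : Subgroup G, Good N → ∀ (T : Type v) [TopologicalSpace T] (f : T → G),
    (∀ N' : Subgroup G, Good N' → N' ≤ N →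
      Continuous fun t => (QuotientGroup.mk (f t) : G ⧸ N')) → Continuous f

/-- (LFT) equivariant lifting of all one-parameter groups -/
def T_LFT : Prop :=
  ∀ (G : Type u) [Group G] [TopologicalSpace G] [IsTopologicalGroup G] [LocallyCompactSpace G]
    [T2Space G], SmallGood G → ∀ K : Subgroup G, IsCompact (K : Set G) →
    ∀ (N : Subgroup G) [N.Normal], Good N →
    ∃ (n : ℕ) (e : (Fin n → ℝ) → ℝ → G ⧸ N) (ρ : K → (Fin n → ℝ) →ₗ[ℝ] (Fin n → ℝ))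
      (j : (Fin n → ℝ) → ℝ → G), Chart (G ⧸ N) n e ∧
      (∀ k l v, ρ (k * l) v = ρ k (ρ l v)) ∧ (∀ v, ρ 1 v = v) ∧
      (∀ v, Continuous fun k => ρ k v) ∧ (∀ v, IsOPS (j v)) ∧
      (∀ v t, (QuotientGroup.mk (j v t) : G ⧸ N) = e v t) ∧
      (∀ (k : K) v t, j (ρ k v) t = k * j v t * (k : G)⁻¹) ∧ Continuous fun v => j v 1

/-- (SEC) equivariant local sections -/
def T_SEC : Prop :=
  ∀ (G : Type u) [Group G] [TopologicalSpace G] [IsTopologicalGroup G] [LocallyCompactSpace G]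
    [T2Space G], SmallGood G → ∀ K : Subgroup G, IsCompact (K : Set G) →
    ∀ (N : Subgroup G) [N.Normal], Good N →
    ∃ (V : Set (G ⧸ N)) (s : G ⧸ N → G), IsOpen V ∧ (1 : G ⧸ N) ∈ V ∧ ContinuousOn s V ∧
      (∀ x ∈ V, (QuotientGroup.mk (s x) : G ⧸ N) = x) ∧ s 1 = 1 ∧
      ∀ k ∈ K, ∀ x ∈ V, (QuotientGroup.mk k : G ⧸ N) * x * (QuotientGroup.mk k)⁻¹ ∈ V ∧
        s ((QuotientGroup.mk k : G ⧸ N) * x * (QuotientGroup.mk k)⁻¹) = k * s x * k⁻¹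

/-! ## Part D: slices -/

/-- (CAR) closed subgroups of matrix groups -/
def T_CAR : Prop :=
  ∀ (K : Type u) [Group K] [TopologicalSpace K] [IsTopologicalGroup K] [CompactSpace K]
    [T2Space K] (m : ℕ) (σ : K →* Matrix (Fin m) (Fin m) ℝ), Continuous σ →
    (∀ g, (σ g).transpose * σ g = 1) →
    ∃ L : Submodule ℝ (Matrix (Fin m) (Fin m) ℝ), (∀ A ∈ L, ∃ k, σ k = NormedSpace.exp A) ∧
      (∀ k, ∀ A ∈ L, σ k * A * (σ k).transpose ∈ L) ∧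
      ∀ W ∈ 𝓝 (0 : Matrix (Fin m) (Fin m) ℝ), ∃ V ∈ 𝓝 (1 : Matrix (Fin m) (Fin m) ℝ),
        ∀ k, σ k ∈ V → ∃ A ∈ L, A ∈ W ∧ σ k = NormedSpace.exp A

/-- (TUB) tubular neighbourhood of a compact group of matrices -/
def T_TUB : Prop :=
  ∀ (K : Type u) [Group K] [TopologicalSpace K] [IsTopologicalGroup K] [CompactSpace K]
    [T2Space K] (m : ℕ) (σ : K →* Matrix (Fin m) (Fin m) ℝ), Continuous σ →
    (∀ g, (σ g).transpose * σ g = 1) →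
    ∃ (T : Set (Matrix (Fin m) (Fin m) ℝ))
      (r : Matrix (Fin m) (Fin m) ℝ → Matrix (Fin m) (Fin m) ℝ), IsOpen T ∧
      (∀ k, σ k ∈ T) ∧ ContinuousOn r T ∧ (∀ M ∈ T, r M ∈ range σ) ∧ (∀ k, r (σ k) = σ k) ∧
      ∀ k l, ∀ M ∈ T, σ k * M * σ l ∈ T ∧ r (σ k * M * σ l) = σ k * r M * σ l

/-- (EXT) equivariant extension of a representation -/
def T_EXT : Prop :=
  ∀ (Q : Type u) [Group Q] [TopologicalSpace Q] [IsTopologicalGroup Q] [LocallyCompactSpace Q]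
    [T2Space Q] (K : Subgroup Q), IsCompact (K : Set Q) → ∀ (m : ℕ)
    (σ : K →* Matrix (Fin m) (Fin m) ℝ), Continuous σ → (∀ g, (σ g).transpose * σ g = 1) →
    ∃ F : Q → Matrix (Fin m) (Fin m) ℝ, Continuous F ∧ (∀ k : K, F k = σ k) ∧
      ∀ (k l : K) (x : Q), F (k * x * l) = σ k * F x * σ l

/-- (SLC) slices in groups without small subgroups -/
def T_SLC : Prop :=
  ∀ (Q : Type u) [Group Q] [TopologicalSpace Q] [IsTopologicalGroup Q] [LocallyCompactSpace Q]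
    [T2Space Q], NSS Q → ∀ K : Subgroup Q, IsCompact (K : Set Q) → HasRetr K

/-- (RET) the retraction for subgroups which contain a good subgroup -/
def T_RET : Prop :=
  ∀ (G : Type u) [Group G] [TopologicalSpace G] [IsTopologicalGroup G] [LocallyCompactSpace G]
    [T2Space G], SmallGood G → ∀ K : Subgroup G, IsCompact (K : Set G) → ∀ N : Subgroup G,
    Good N → N ≤ K → HasRetr K

/-- (STO) from the retraction to the twisted product -/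
def T_STO : Prop :=
  ∀ (G : Type u) [Group G] [TopologicalSpace G] [IsTopologicalGroup G] [LocallyCompactSpace G]
    [T2Space G] (K : Subgroup G), IsCompact (K : Set G) → HasRetr K →
    ∀ (S : Type v) [TopologicalSpace S] [T35Space S] [MulAction K S] [ContinuousSMul K S],
      IsNhdEquivRetract K (range (Twisted.incl K S))

/-! ## Part E: dimension and local connectedness -/

/-- (OPN) -/
def T_OPN : Prop :=
  ∀ (M : Type u) [Group M] [TopologicalSpace M] [IsTopologicalGroup M] [CompactSpace M]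
    [T2Space M], NSS M → ∀ P : Subgroup M, IsClosed (P : Set M) → P.index = 0 →
    ∃ X : ℝ → M, IsOPS X ∧ ∃ t, X t ∉ P

/-- (ARC) -/
def T_ARC : Prop :=
  ∀ (G : Type u) [Group G] [TopologicalSpace G] [IsTopologicalGroup G] [LocallyCompactSpace G]
    [T2Space G], SmallGood G → ∀ K : Subgroup G, IsCompact (K : Set G) →
    ∀ N N' : Subgroup G, Good N → Good N' → N' ≤ N → (K ⊔ N').relIndex (K ⊔ N) = 0 →
    ∃ a : ℝ → G, IsOPS a ∧ (∀ t, a t ∈ N) ∧ ∃ ε : ℝ, 0 < ε ∧ ∀ t, |t| ≤ ε → a t ∈ K ⊔ N' → t = 0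

/-- (LEB) the covering dimension of the cube -/
def T_LEB : Prop :=
  ∀ d : ℕ, ¬ CovDimLE (Icc (0 : Fin (d + 1) → ℝ) 1) d

/-- (CUB) -/
def T_CUB : Prop :=
  ∀ (X : Type u) [TopologicalSpace X] [T2Space X] (d : ℕ) (f : (Fin (d + 1) → ℝ) → X),
    ContinuousOn f (Icc 0 1) → InjOn f (Icc 0 1) → ¬ CovDimLE X d

/-- (DIM) -/
def T_DIM : Prop :=
  ∀ (G : Type u) [Group G] [TopologicalSpace G] [IsTopologicalGroup G] [LocallyCompactSpace G]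
    [T2Space G], SmallGood G → ∀ K : Subgroup G, IsCompact (K : Set G) → ∀ n : ℕ,
    CovDimLE (G ⧸ K) n →
    ∃ N : Subgroup G, Good N ∧ ∀ N' : Subgroup G, Good N' → N' ≤ N →
      (K ⊔ N').relIndex (K ⊔ N) ≠ 0

/-- (LCN) -/
def T_LCN : Prop :=
  ∀ (G : Type u) [Group G] [TopologicalSpace G] [IsTopologicalGroup G] [LocallyCompactSpace G]
    [T2Space G], SmallGood G → ∀ K : Subgroup G, IsCompact (K : Set G) →
    LocallyConnectedSpace (G ⧸ K) → ∀ N : Subgroup G, Good N →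
    (∀ N' : Subgroup G, Good N' → N' ≤ N → (K ⊔ N').relIndex (K ⊔ N) ≠ 0) →
    ∃ N' : Subgroup G, Good N' ∧ N' ≤ K

/-- (FIN) the answer to the question -/
def T_FIN : Prop :=
  ∀ (G : Type u) [Group G] [TopologicalSpace G] [IsTopologicalGroup G] [LocallyCompactSpace G]
    [T2Space G], QuestionFor.{v} G

end Pool.Agent.H95.GY
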